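import Mathlib

/-!
# Milnor K-theory, tame symbols, Bass-Tate norms: definitions (project KEW)
-/

namespace Pool.Agent.H62.MK

open Function

universe u v w

/-- The relations of the Milnor K-group: multilinearity and the Steinberg relation for adjacent entries. -/
inductive MRel (R : Type u) [CommRing R] (n : ℕ) : FreeAbelianGroup (Fin n → Rˣ) → Prop
  | mul (a : Fin n → Rˣ) (i : Fin n) (x y : Rˣ) :
      MRel R n (FreeAbelianGroup.of (update a i (x * y)) - FreeAbelianGroup.of (update a i x)
        - FreeAbelianGroup.of (update a i y))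
  | steinberg (a : Fin n → Rˣ) (i : ℕ) (hi : i + 1 < n)
      (h : (a ⟨i, by omega⟩ : R) + (a ⟨i + 1, hi⟩ : R) = 1) :
      MRel R n (FreeAbelianGroup.of a)

/-- The n-th Milnor K-group of a commutative ring: the degree n part of the tensor algebra of the
group of units modulo the two-sided ideal generated by `a ⊗ (1 - a)`, by generators and relations. -/
def MilnorK (R : Type u) [CommRing R] (n : ℕ) : Type u :=
  FreeAbelianGroup (Fin n → Rˣ) ⧸ AddSubgroup.closure {z | MRel R n z}

noncomputable instance (R : Type u) [CommRing R] (n : ℕ) : AddCommGroup (MilnorK R n) :=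
  inferInstanceAs (AddCommGroup (FreeAbelianGroup (Fin n → Rˣ) ⧸ _))

section basic

variable {R : Type u} [CommRing R] {n : ℕ}

/-- The symbol `{a_0, …, a_(n-1)}`. -/
noncomputable def sym (a : Fin n → Rˣ) : MilnorK R n :=
  QuotientAddGroup.mk (FreeAbelianGroup.of a)

theorem sym_update_mul (a : Fin n → Rˣ) (i : Fin n) (x y : Rˣ) :
    sym (update a i (x * y)) = sym (update a i x) + sym (update a i y) := by
  have h : (QuotientAddGroup.mk (FreeAbelianGroup.of (update a i (x * y))
      - FreeAbelianGroup.of (update a i x) - FreeAbelianGroup.of (update a i y)) :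
      FreeAbelianGroup (Fin n → Rˣ) ⧸ AddSubgroup.closure {z | MRel R n z}) = 0 :=
    (QuotientAddGroup.eq_zero_iff _).2 (AddSubgroup.subset_closure (MRel.mul a i x y))
  rw [sub_sub, QuotientAddGroup.mk_sub, QuotientAddGroup.mk_add] at h
  exact sub_eq_zero.1 h

theorem sym_steinberg (a : Fin n → Rˣ) (i : ℕ) (hi : i + 1 < n)
    (h : (a ⟨i, by omega⟩ : R) + (a ⟨i + 1, hi⟩ : R) = 1) : sym a = 0 :=
  (QuotientAddGroup.eq_zero_iff _).2 (AddSubgroup.subset_closure (MRel.steinberg a i hi h))

/-- The universal property. -/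
noncomputable def lift {A : Type v} [AddCommGroup A] (f : (Fin n → Rˣ) → A)
    (hm : ∀ (a : Fin n → Rˣ) (i : Fin n) (x y : Rˣ),
      f (update a i (x * y)) = f (update a i x) + f (update a i y))
    (hs : ∀ (a : Fin n → Rˣ) (i : ℕ) (hi : i + 1 < n),
      (a ⟨i, by omega⟩ : R) + (a ⟨i + 1, hi⟩ : R) = 1 → f a = 0) :
    MilnorK R n →+ A :=
  QuotientAddGroup.lift _ (FreeAbelianGroup.lift f) (by
    rw [AddSubgroup.closure_le]
    rintro z hz
    cases hz with
    | mul a i x y =>
      simp only [SetLike.mem_coe, AddMonoidHom.mem_ker, map_sub, FreeAbelianGroup.lift_apply_of, hm]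
      abel
    | steinberg a i hi h =>
      simp only [SetLike.mem_coe, AddMonoidHom.mem_ker, FreeAbelianGroup.lift_apply_of]
      exact hs a i hi h)

theorem lift_sym {A : Type v} [AddCommGroup A] (f : (Fin n → Rˣ) → A) (hm hs) (a : Fin n → Rˣ) :
    lift f hm hs (sym a) = f a := by
  show FreeAbelianGroup.lift f (FreeAbelianGroup.of a) = f a
  exact FreeAbelianGroup.lift_apply_of _ _

theorem MilnorK.induction {p : MilnorK R n → Prop} (x : MilnorK R n) (h0 : p 0)
    (hs : ∀ a, p (sym a)) (hn : ∀ x, p x → p (-x)) (ha : ∀ x y, p x → p y → p (x + y)) : p x := by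
  refine QuotientAddGroup.induction_on x fun z => ?_
  induction z using FreeAbelianGroup.induction_on with
  | zero => exact h0
  | of a => exact hs a
  | neg a h => exact hn _ h
  | add x y hx hy => exact ha _ _ hx hy

theorem hom_ext {A : Type v} [AddCommGroup A] {f g : MilnorK R n →+ A}
    (h : ∀ a, f (sym a) = g (sym a)) : f = g := by
  ext x
  refine MilnorK.induction (p := fun x => f x = g x) x (by simp) h ?_ ?_
  · intro x hx; simp [hx]
  · intro x y hx hy; simp [hx, hy]

/-- Left multiplication by the symbol `{a}`. -/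
noncomputable def cup (a : Rˣ) : MilnorK R n →+ MilnorK R (n + 1) :=
  lift (fun b => sym (Fin.cons a b : Fin (n + 1) → Rˣ))
    (by
      intro b i x y
      simp only [Fin.cons_update]
      exact sym_update_mul _ _ _ _)
    (by
      intro b i hi h
      refine sym_steinberg _ (i + 1) (by omega) ?_
      exact h)

theorem cup_sym (a : Rˣ) (b : Fin n → Rˣ) : cup a (sym b) = sym (Fin.cons a b : Fin (n + 1) → Rˣ) :=
  lift_sym _ _ _ _

theorem cup_mul (a b : Rˣ) (x : MilnorK R n) : cup (a * b) x = cup a x + cup b x := by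
  have : (cup (a * b) : MilnorK R n →+ MilnorK R (n + 1)) = cup a + cup b := by
    refine hom_ext fun c => ?_
    rw [AddMonoidHom.add_apply, cup_sym, cup_sym, cup_sym]
    have h := sym_update_mul (Fin.cons (1 : Rˣ) c : Fin (n + 1) → Rˣ) 0 a b
    simpa using h
  rw [this]; rfl

theorem cup_cup_eq_zero (a b : Rˣ) (h : (a : R) + (b : R) = 1) (x : MilnorK R n) :
    cup a (cup b x) = 0 := by
  have : ((cup a : MilnorK R (n + 1) →+ MilnorK R (n + 2)).comp (cup b)) = 0 := by
    refine hom_ext fun c => ?_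
    rw [AddMonoidHom.comp_apply, cup_sym, cup_sym, AddMonoidHom.zero_apply]
    exact sym_steinberg (n := n + 2) _ 0 (by omega) (by simpa using h)
  exact DFunLike.congr_fun this x

theorem cup_one (x : MilnorK R n) : cup (1 : Rˣ) x = 0 := by
  have h := cup_mul (1 : Rˣ) 1 x
  rw [mul_one] at h
  exact left_eq_add.1 h

theorem cup_inv (a : Rˣ) (x : MilnorK R n) : cup a⁻¹ x = -cup a x := by
  have h := cup_mul a a⁻¹ x
  rw [mul_inv_cancel, cup_one] at h
  exact (neg_eq_of_add_eq_zero_right h.symm).symm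

/-- `cup` as a homomorphism in the unit. -/
noncomputable def cupHom (x : MilnorK R n) : Additive Rˣ →+ MilnorK R (n + 1) :=
  AddMonoidHom.mk' (fun a => cup a.toMul x) (fun a b => cup_mul _ _ x)

theorem cup_zpow (a : Rˣ) (m : ℤ) (x : MilnorK R n) : cup (a ^ m) x = m • cup a x :=
  map_zsmul (cupHom x) m (Additive.ofMul a)

/-- The unit symbol in degree 0. -/
noncomputable def one0 : MilnorK R 0 := sym Fin.elim0

theorem sym_cons (a : Rˣ) (b : Fin n → Rˣ) : sym (Fin.cons a b : Fin (n + 1) → Rˣ) = cup a (sym b) :=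
  (cup_sym a b).symm

/-- Functoriality. -/
noncomputable def map {S : Type v} [CommRing S] (f : R →+* S) (n : ℕ) :
    MilnorK R n →+ MilnorK S n :=
  lift (fun a => sym (fun i => Units.map f.toMonoidHom (a i)))
    (by
      intro a i x y
      have e : ∀ z : Rˣ, (fun j => Units.map f.toMonoidHom (update a i z j))
          = update (fun j => Units.map f.toMonoidHom (a j)) i (Units.map f.toMonoidHom z) := by
        intro z
        funext j
        by_cases h : j = i
        · subst h; simp
        · simp [h]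
      rw [e, e, e, map_mul]
      exact sym_update_mul _ _ _ _)
    (by
      intro a i hi h
      refine sym_steinberg _ i hi ?_
      have := congrArg f h
      simpa using this)

theorem map_sym {S : Type v} [CommRing S] (f : R →+* S) (a : Fin n → Rˣ) :
    map f n (sym a) = sym (fun i => Units.map f.toMonoidHom (a i)) :=
  lift_sym _ _ _ _

theorem map_cup {S : Type v} [CommRing S] (f : R →+* S) (a : Rˣ) (x : MilnorK R n) :
    map f (n + 1) (cup a x) = cup (Units.map f.toMonoidHom a) (map f n x) := by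
  have : ((map f (n + 1)).comp (cup a)) = (cup (Units.map f.toMonoidHom a)).comp (map f n) := by
    refine hom_ext fun c => ?_
    rw [AddMonoidHom.comp_apply, AddMonoidHom.comp_apply, cup_sym, map_sym, map_sym, cup_sym]
    congr 1
    funext j
    refine Fin.cases ?_ (fun j => ?_) j <;> simp
  exact DFunLike.congr_fun this x

end basic

section field

variable {F : Type u} [Field F] {n : ℕ}

theorem cup_cup_neg_self (a : Fˣ) (x : MilnorK F n) : cup a (cup (-a) x) = 0 := by
  by_cases h1 : (a : F) = 1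
  · have : a = 1 := Units.ext h1
    subst this
    exact cup_one _
  · have h2 : (1 : F) - a ≠ 0 := fun h => h1 (sub_eq_zero.1 h).symm
    have ha : (a : F) ≠ 0 := a.ne_zero
    have h3 : (1 : F) - (a : F)⁻¹ ≠ 0 := by
      intro h
      have : (a : F)⁻¹ = 1 := (sub_eq_zero.1 h).symm
      exact h1 (inv_eq_one.1 this)
    have e : (-a) = Units.mk0 _ h2 * (Units.mk0 _ h3)⁻¹ := by
      apply Units.ext
      simp only [Units.val_neg, Units.val_mul, Units.val_mk0, Units.val_inv_eq_inv_val]
      field_simp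
      ring
    have e1 : cup a (cup (Units.mk0 _ h2) x) = 0 :=
      cup_cup_eq_zero _ _ (by simp) x
    have e2 : cup a⁻¹ (cup (Units.mk0 _ h3) x) = 0 :=
      cup_cup_eq_zero _ _ (by simp) x
    rw [cup_inv, neg_eq_zero] at e2
    rw [e, cup_mul, cup_inv, map_add, map_neg, e1, e2]
    simp

theorem cup_cup_self (a : Fˣ) (x : MilnorK F n) : cup a (cup a x) = cup a (cup (-1) x) := by
  have h := cup_cup_neg_self a x
  have e : (-a) = (-1) * a := by simp
  rw [e, cup_mul, map_add] at h
  have h2 : cup a (cup (-1 : Fˣ) x) + cup a (cup (-1 : Fˣ) x) = 0 := by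
    rw [← map_add, ← cup_mul]
    simp [cup_one]
  have := eq_neg_of_add_eq_zero_right h
  rw [this]
  exact (eq_neg_of_add_eq_zero_right h2).symm

theorem cup_anticomm (a b : Fˣ) (x : MilnorK F n) : cup a (cup b x) = -cup b (cup a x) := by
  have h := cup_cup_neg_self (a * b) x
  have e : (-(a * b)) = (-a) * b := by simp
  have h1 := cup_cup_neg_self a x
  have h2 : cup b (cup (-b) x) = 0 := cup_cup_neg_self b x
  have e3 : cup b (cup (-a) x) + cup b (cup b x) = cup b (cup a x) + cup b (cup (-b) x) := by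
    rw [← map_add, ← map_add, ← cup_mul, ← cup_mul]
    congr 2
    simp
  rw [e, cup_mul, cup_mul, map_add, map_add, h1, zero_add] at h
  rw [h2, add_zero] at e3
  have h4 : cup a (cup b x) + cup b (cup a x) = 0 := by
    rw [← e3]
    rw [← h]
  exact eq_neg_of_add_eq_zero_left h4

theorem two_cup_neg_one (x : MilnorK F n) : cup (-1 : Fˣ) x + cup (-1 : Fˣ) x = 0 := by
  rw [← cup_mul]; simp [cup_one]

theorem even_cup_neg_one (m : ℤ) (hm : Even m) (x : MilnorK F n) : m • cup (-1 : Fˣ) x = 0 := by
  obtain ⟨k, rfl⟩ := hm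
  rw [add_smul, ← smul_add, two_cup_neg_one, smul_zero]

end field

section ops

variable {R : Type u} [CommRing R]

/-- Iterated operators. -/
def opVal {A : ℕ → Type v} (base : A 0) (Θ : ∀ n, Rˣ → A n → A (n + 1)) :
    ∀ n : ℕ, (Fin n → Rˣ) → A n
  | 0, _ => base
  | (n + 1), a => Θ n (a 0) (opVal base Θ n (Fin.tail a))

theorem opVal_update {A : ℕ → Type v} [∀ n, AddCommGroup (A n)] (base : A 0)
    (Θ : ∀ n, Rˣ → A n →+ A (n + 1))
    (hm : ∀ n a b (x : A n), Θ n (a * b) x = Θ n a x + Θ n b x) :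
    ∀ (n : ℕ) (a : Fin n → Rˣ) (i : Fin n) (x y : Rˣ),
      opVal base (fun n a => Θ n a) n (update a i (x * y))
        = opVal base (fun n a => Θ n a) n (update a i x)
          + opVal base (fun n a => Θ n a) n (update a i y) := by
  intro n
  induction n with
  | zero => intro a i; exact i.elim0
  | succ n ih =>
    intro a i x y
    refine Fin.cases ?_ (fun j => ?_) i
    · simp only [opVal, update_self, Fin.tail_update_zero]
      exact hm _ _ _ _
    · simp only [opVal, Fin.tail_update_succ]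
      rw [update_of_ne (Fin.succ_ne_zero j).symm, update_of_ne (Fin.succ_ne_zero j).symm,
        update_of_ne (Fin.succ_ne_zero j).symm, ih, map_add]

theorem opVal_steinberg {A : ℕ → Type v} [∀ n, AddCommGroup (A n)] (base : A 0)
    (Θ : ∀ n, Rˣ → A n →+ A (n + 1))
    (hs : ∀ n (a b : Rˣ), (a : R) + (b : R) = 1 → ∀ x : A n, Θ (n + 1) a (Θ n b x) = 0) :
    ∀ (n : ℕ) (a : Fin n → Rˣ) (i : ℕ) (hi : i + 1 < n),
      (a ⟨i, by omega⟩ : R) + (a ⟨i + 1, hi⟩ : R) = 1 →
      opVal base (fun n a => Θ n a) n a = 0 := by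
  intro n
  induction n with
  | zero => intro a i hi; omega
  | succ n ih =>
    intro a i hi h
    cases i with
    | zero =>
      cases n with
      | zero => omega
      | succ n => exact hs n _ _ h _
    | succ i =>
      simp only [opVal]
      rw [ih (Fin.tail a) i (by omega) h, map_zero]

/-- Homomorphisms out of Milnor K-groups from a graded family with operators. -/
noncomputable def liftOp {A : ℕ → Type v} [∀ n, AddCommGroup (A n)] (base : A 0)
    (Θ : ∀ n, Rˣ → A n →+ A (n + 1))
    (hm : ∀ n a b (x : A n), Θ n (a * b) x = Θ n a x + Θ n b x)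
    (hs : ∀ n (a b : Rˣ), (a : R) + (b : R) = 1 → ∀ x : A n, Θ (n + 1) a (Θ n b x) = 0)
    (n : ℕ) : MilnorK R n →+ A n :=
  lift (opVal base (fun n a => Θ n a) n) (opVal_update base Θ hm n) (opVal_steinberg base Θ hs n)

theorem liftOp_zero {A : ℕ → Type v} [∀ n, AddCommGroup (A n)] (base : A 0)
    (Θ : ∀ n, Rˣ → A n →+ A (n + 1)) (hm) (hs) (a : Fin 0 → Rˣ) :
    liftOp base Θ hm hs 0 (sym a) = base :=
  lift_sym _ _ _ _

theorem liftOp_cup {A : ℕ → Type v} [∀ n, AddCommGroup (A n)] (base : A 0)
    (Θ : ∀ n, Rˣ → A n →+ A (n + 1)) (hm) (hs) (n : ℕ) (a : Rˣ) (x : MilnorK R n) :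
    liftOp base Θ hm hs (n + 1) (cup a x) = Θ n a (liftOp base Θ hm hs n x) := by
  have : (liftOp base Θ hm hs (n + 1)).comp (cup a) = (Θ n a).comp (liftOp base Θ hm hs n) := by
    refine hom_ext fun c => ?_
    rw [AddMonoidHom.comp_apply, AddMonoidHom.comp_apply, cup_sym]
    unfold liftOp
    rw [lift_sym, lift_sym]
    simp [opVal]
  exact DFunLike.congr_fun this x

end ops

/-- A discrete valuation (surjective order function) of a field `F` together with its valuation
ring and a surjective residue homomorphism onto a field `κ`. -/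
structure DV (F : Type u) (κ : Type v) [Field F] [Field κ] where
  /-- the order function on nonzero elements -/
  ord : Fˣ → ℤ
  ord_mul : ∀ a b, ord (a * b) = ord a + ord b
  ord_surj : Surjective ord
  /-- the valuation ring -/
  ring : Subring F
  mem_ring : ∀ a : Fˣ, (a : F) ∈ ring ↔ 0 ≤ ord a
  /-- the residue homomorphism -/
  res : ring →+* κ
  res_surj : Surjective res
  res_eq_zero : ∀ (a : Fˣ) (h : (a : F) ∈ ring), res ⟨a, h⟩ = 0 ↔ 0 < ord a

namespace DV

variable {F : Type u} {κ : Type v} [Field F] [Field κ] (D : DV F κ)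

theorem ord_one : D.ord 1 = 0 := by
  have := D.ord_mul 1 1
  rw [mul_one] at this
  omega

theorem ord_inv (a : Fˣ) : D.ord a⁻¹ = -D.ord a := by
  have := D.ord_mul a a⁻¹
  rw [mul_inv_cancel, D.ord_one] at this
  omega

/-- The order as a homomorphism. -/
def ordHom : Fˣ →* Multiplicative ℤ where
  toFun a := Multiplicative.ofAdd (D.ord a)
  map_one' := by rw [D.ord_one]; rfl
  map_mul' a b := by rw [D.ord_mul]; rfl

theorem ord_zpow (a : Fˣ) (m : ℤ) : D.ord (a ^ m) = m * D.ord a := by
  have := map_zpow D.ordHom a m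
  have h := congrArg Multiplicative.toAdd this
  simpa [ordHom] using h

theorem ord_neg (a : Fˣ) : D.ord (-a) = D.ord a := by
  have h1 : D.ord (-1 : Fˣ) + D.ord (-1 : Fˣ) = 0 := by
    rw [← D.ord_mul]; simp [D.ord_one]
  have h2 : D.ord (-1 : Fˣ) = 0 := by omega
  have : (-a) = (-1) * a := by simp
  rw [this, D.ord_mul, h2, zero_add]

/-- Units of order 0 have nonzero residue. -/
theorem res_ne_zero (a : Fˣ) (h : D.ord a = 0) :
    D.res ⟨a, (D.mem_ring a).2 h.ge⟩ ≠ 0 := by
  rw [Ne, D.res_eq_zero]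
  omega

/-- The residue of a unit of the valuation ring. -/
noncomputable def resUnit (a : Fˣ) (h : D.ord a = 0) : κˣ :=
  Units.mk0 (D.res ⟨a, (D.mem_ring a).2 h.ge⟩) (D.res_ne_zero a h)

/-- A chosen uniformiser. -/
noncomputable def unif : Fˣ := (D.ord_surj 1).choose

theorem ord_unif : D.ord D.unif = 1 := (D.ord_surj 1).choose_spec

/-- The unit part of an element with respect to the chosen uniformiser. -/
noncomputable def unitPart (a : Fˣ) : Fˣ := a * D.unif ^ (-D.ord a)

theorem ord_unitPart (a : Fˣ) : D.ord (D.unitPart a) = 0 := by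
  unfold unitPart
  rw [D.ord_mul, D.ord_zpow, D.ord_unif]
  ring

/-- Residue of the unit part. -/
noncomputable def ures (a : Fˣ) : κˣ := D.resUnit (D.unitPart a) (D.ord_unitPart a)

theorem ures_mul (a b : Fˣ) : D.ures (a * b) = D.ures a * D.ures b := by
  apply Units.ext
  simp only [ures, resUnit, Units.val_mk0, Units.val_mul]
  rw [← map_mul]
  congr 1
  apply Subtype.ext
  have : D.unitPart (a * b) = D.unitPart a * D.unitPart b := by
    unfold unitPart
    rw [D.ord_mul, neg_add, zpow_add]
    exact mul_mul_mul_comm _ _ _ _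
  simp [this]

theorem ures_of_ord_eq_zero (a : Fˣ) (h : D.ord a = 0) : D.ures a = D.resUnit a h := by
  apply Units.ext
  simp only [ures, resUnit, Units.val_mk0]
  congr 1
  apply Subtype.ext
  simp [unitPart, h]

theorem ures_unif : D.ures D.unif = 1 := by
  apply Units.ext
  simp only [ures, resUnit, Units.val_mk0, Units.val_one]
  rw [← map_one D.res]
  congr 1
  apply Subtype.ext
  simp [unitPart, D.ord_unif]

theorem ures_one : D.ures 1 = 1 := by
  have := D.ures_mul 1 1
  rw [mul_one] at this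
  exact left_eq_mul.1 this

theorem ures_neg_one : D.ures (-1) = -1 := by
  have h : D.ord (-1 : Fˣ) = 0 := by rw [D.ord_neg, D.ord_one]
  rw [D.ures_of_ord_eq_zero _ h]
  apply Units.ext
  simp only [resUnit, Units.val_mk0, Units.val_neg, Units.val_one]
  rw [← map_one D.res, ← map_neg]
  congr 1

theorem ures_neg (a : Fˣ) : D.ures (-a) = -D.ures a := by
  have : (-a) = (-1) * a := by simp
  rw [this, D.ures_mul, D.ures_neg_one]; simp

/-- `1 - a` for `a` of positive order is a unit with residue 1. -/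
theorem ures_of_pos (a b : Fˣ) (h : (a : F) + b = 1) (ha : 0 < D.ord a) :
    D.ord b = 0 ∧ D.ures b = 1 := by
  have ham : (a : F) ∈ D.ring := (D.mem_ring a).2 ha.le
  have hb : (b : F) = 1 - a := by linear_combination h
  have hbm : (b : F) ∈ D.ring := by rw [hb]; exact D.ring.sub_mem D.ring.one_mem ham
  have hr : D.res ⟨b, hbm⟩ = 1 := by
    have e : (⟨b, hbm⟩ : D.ring) = 1 - ⟨a, ham⟩ := by
      apply Subtype.ext
      simpa using hb
    rw [e, map_sub, (D.res_eq_zero a ham).2 ha, map_one, sub_zero]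
  have h0 : D.ord b = 0 := by
    have h1 := (D.mem_ring b).1 hbm
    have h2 : ¬ 0 < D.ord b := by
      intro h3
      rw [← D.res_eq_zero b hbm, hr] at h3
      exact one_ne_zero h3
    omega
  refine ⟨h0, ?_⟩
  rw [D.ures_of_ord_eq_zero _ h0]
  apply Units.ext
  simpa [resUnit] using hr

theorem ures_add (a b : Fˣ) (h : (a : F) + b = 1) (ha : D.ord a = 0) (hb : D.ord b = 0) :
    (D.ures a : κ) + D.ures b = 1 := by
  rw [D.ures_of_ord_eq_zero _ ha, D.ures_of_ord_eq_zero _ hb]
  simp only [resUnit, Units.val_mk0]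
  rw [← map_add, ← map_one D.res]
  congr 1
  apply Subtype.ext
  simpa using h

theorem ures_of_neg (a b : Fˣ) (h : (a : F) + b = 1) (ha : D.ord a < 0) :
    D.ord b = D.ord a ∧ D.ures b = -D.ures a := by
  have ha0 : (a : F) ≠ 0 := a.ne_zero
  have e : ((a⁻¹ : Fˣ) : F) + ((-(b * a⁻¹) : Fˣ) : F) = 1 := by
    simp only [Units.val_inv_eq_inv_val, Units.val_neg, Units.val_mul]
    have hb : (b : F) = 1 - a := by linear_combination h
    rw [hb]
    field_simp
    ring
  obtain ⟨h1, h2⟩ := D.ures_of_pos _ _ e (by rw [D.ord_inv]; omega)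
  rw [D.ord_neg, D.ord_mul, D.ord_inv] at h1
  refine ⟨by omega, ?_⟩
  rw [D.ures_neg, D.ures_mul] at h2
  have h3 : D.ures a⁻¹ = (D.ures a)⁻¹ := by
    have := D.ures_mul a a⁻¹
    rw [mul_inv_cancel, D.ures_one] at this
    exact (inv_eq_of_mul_eq_one_right this.symm).symm
  rw [h3] at h2
  have h4 : D.ures b * (D.ures a)⁻¹ = -1 := by
    rw [← neg_neg (D.ures b * (D.ures a)⁻¹), h2]
  calc D.ures b = (D.ures b * (D.ures a)⁻¹) * D.ures a := by simp
    _ = -D.ures a := by rw [h4]; simp

end DV

/-- Milnor K-groups shifted by one: `KS κ n = K_(n-1)(κ)`. -/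
def KS (κ : Type v) [CommRing κ] : ℕ → Type v
  | 0 => PUnit
  | (n + 1) => MilnorK κ n

noncomputable instance (κ : Type v) [CommRing κ] : ∀ n, AddCommGroup (KS κ n)
  | 0 => inferInstanceAs (AddCommGroup PUnit)
  | (n + 1) => inferInstanceAs (AddCommGroup (MilnorK κ n))

/-- Left multiplication on the shifted groups. -/
noncomputable def cupS {κ : Type v} [CommRing κ] (a : κˣ) : ∀ n, KS κ n →+ KS κ (n + 1)
  | 0 => 0
  | (n + 1) => (cup a : MilnorK κ n →+ MilnorK κ (n + 1))

/-- The identification `K_n = K_((n+1)-1)`. -/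
noncomputable def toKS {κ : Type v} [CommRing κ] : ∀ n, MilnorK κ n →+ KS κ (n + 1) :=
  fun n => (AddMonoidHom.id (MilnorK κ n) : MilnorK κ n →+ MilnorK κ n)

theorem cupS_mul {κ : Type v} [CommRing κ] (a b : κˣ) (n : ℕ) (x : KS κ n) :
    cupS (a * b) n x = cupS a n x + cupS b n x := by
  cases n with
  | zero => simp [cupS]
  | succ n => exact cup_mul a b (n := n) x

theorem cupS_cupS_neg_self {κ : Type v} [Field κ] (a : κˣ) (n : ℕ) (x : KS κ n) :
    cupS a (n + 1) (cupS (-a) n x) = 0 := by
  cases n with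
  | zero => exact (cup a : MilnorK κ 0 →+ MilnorK κ 1).map_zero
  | succ n => exact cup_cup_neg_self a (n := n) x

theorem cupS_cupS_eq_zero {κ : Type v} [Field κ] (a b : κˣ) (h : (a : κ) + b = 1) (n : ℕ)
    (x : KS κ n) : cupS a (n + 1) (cupS b n x) = 0 := by
  cases n with
  | zero => exact (cup a : MilnorK κ 0 →+ MilnorK κ 1).map_zero
  | succ n => exact cup_cup_eq_zero a b h (n := n) x

theorem cupS_anticomm {κ : Type v} [Field κ] (a b : κˣ) (n : ℕ) (x : KS κ n) :
    cupS a (n + 1) (cupS b n x) = -cupS b (n + 1) (cupS a n x) := by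
  cases n with
  | zero =>
    have h1 : cupS a (0 + 1) (cupS b 0 x) = 0 := (cup a : MilnorK κ 0 →+ MilnorK κ 1).map_zero
    have h2 : cupS b (0 + 1) (cupS a 0 x) = 0 := (cup b : MilnorK κ 0 →+ MilnorK κ 1).map_zero
    rw [h1, h2, neg_zero]
  | succ n => exact cup_anticomm a b (n := n) x

theorem cupS_one {κ : Type v} [CommRing κ] (n : ℕ) (x : KS κ n) : cupS (1 : κˣ) n x = 0 := by
  have h := cupS_mul (1 : κˣ) 1 n x
  rw [mul_one] at h
  exact left_eq_add.1 h

theorem even_cupS_neg_one {κ : Type v} [Field κ] (m : ℤ) (hm : Even m) (n : ℕ) (x : KS κ n) :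
    m • cupS (-1 : κˣ) n x = 0 := by
  obtain ⟨k, rfl⟩ := hm
  have : cupS (-1 : κˣ) n x + cupS (-1 : κˣ) n x = 0 := by
    rw [← cupS_mul]; simp [cupS_one]
  rw [add_smul, ← smul_add, this, smul_zero]

/-- The operator of `a` on pairs (specialisation, tame symbol). -/
noncomputable def theta {F : Type u} {κ : Type v} [Field F] [Field κ] (D : DV F κ) (n : ℕ) (a : Fˣ) :
    (MilnorK κ n × KS κ n) →+ (MilnorK κ (n + 1) × KS κ (n + 1)) where
  toFun x := (cup (D.ures a) x.1,
    D.ord a • toKS n x.1 - cupS (D.ures a) n x.2 + D.ord a • cupS (-1) n x.2)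
  map_zero' := by simp
  map_add' x y := by
    ext
    · simp
    · simp only [Prod.fst_add, Prod.snd_add, map_add, smul_add]
      abel

theorem theta_mul {F : Type u} {κ : Type v} [Field F] [Field κ] (D : DV F κ) (n : ℕ) (a b : Fˣ)
    (x : MilnorK κ n × KS κ n) : theta D n (a * b) x = theta D n a x + theta D n b x := by
  ext
  · simp only [theta, AddMonoidHom.coe_mk, ZeroHom.coe_mk, D.ures_mul, cup_mul, Prod.fst_add]
  · simp only [theta, AddMonoidHom.coe_mk, ZeroHom.coe_mk, D.ures_mul, D.ord_mul, cupS_mul,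
      Prod.snd_add, add_smul]
    abel

theorem toKS_cup {κ : Type v} [CommRing κ] (a : κˣ) (n : ℕ) (x : MilnorK κ n) :
    toKS (n + 1) (cup a x) = cupS a (n + 1) (toKS n x) := rfl

theorem theta_steinberg {F : Type u} {κ : Type v} [Field F] [Field κ] (D : DV F κ) (n : ℕ)
    (a b : Fˣ) (h : (a : F) + b = 1) (x : MilnorK κ n × KS κ n) :
    theta D (n + 1) a (theta D n b x) = 0 := by
  obtain ⟨s, d⟩ := x
  ext
  · show cup (D.ures a) (cup (D.ures b) s) = 0
    rcases lt_trichotomy (D.ord a) 0 with ha | ha | ha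
    · obtain ⟨-, h2⟩ := D.ures_of_neg a b h ha
      rw [h2]; exact cup_cup_neg_self _ _
    · rcases lt_trichotomy (D.ord b) 0 with hb | hb | hb
      · obtain ⟨h1, -⟩ := D.ures_of_neg b a (by rw [add_comm]; exact h) hb
        omega
      · exact cup_cup_eq_zero _ _ (D.ures_add a b h ha hb) _
      · obtain ⟨-, h2⟩ := D.ures_of_pos b a (by rw [add_comm]; exact h) hb
        rw [h2]; exact cup_one _
    · obtain ⟨-, h2⟩ := D.ures_of_pos a b h ha
      rw [h2, cup_one, map_zero]
  · show D.ord a • toKS (n + 1) (cup (D.ures b) s)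
      - cupS (D.ures a) (n + 1) (D.ord b • toKS n s - cupS (D.ures b) n d
          + D.ord b • cupS (-1) n d)
      + D.ord a • cupS (-1) (n + 1) (D.ord b • toKS n s - cupS (D.ures b) n d
          + D.ord b • cupS (-1) n d) = 0
    rw [toKS_cup]
    rcases lt_trichotomy (D.ord a) 0 with ha | ha | ha
    · obtain ⟨h1, h2⟩ := D.ures_of_neg a b h ha
      have hb' : (-D.ures a : κˣ) = (-1) * D.ures a := by simp
      rw [h2, h1]
      simp only [map_add, map_sub, map_zsmul, smul_add, smul_sub]
      rw [cupS_cupS_neg_self]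
      have e1 : cupS (-D.ures a) (n + 1) (toKS n s)
          = cupS (-1) (n + 1) (toKS n s) + cupS (D.ures a) (n + 1) (toKS n s) := by
        rw [hb', cupS_mul]
      have e2 : cupS (-1 : κˣ) (n + 1) (cupS (-D.ures a) n d)
          = cupS (-1) (n + 1) (cupS (-1) n d) + cupS (-1) (n + 1) (cupS (D.ures a) n d) := by
        rw [hb', cupS_mul, map_add]
      have e3 : cupS (D.ures a) (n + 1) (cupS (-1) n d)
          = -cupS (-1) (n + 1) (cupS (D.ures a) n d) := cupS_anticomm _ _ _ _
      rw [e1, e2, e3]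
      set v := D.ord a
      have k1 : (v * (v + 1)) • cupS (-1 : κˣ) (n + 1) (toKS n s) = 0 :=
        even_cupS_neg_one _ (Int.even_mul_succ_self v) _ _
      have k2 : (v * (v - 1)) • cupS (-1 : κˣ) (n + 1) (cupS (-1 : κˣ) n d) = 0 :=
        even_cupS_neg_one _ (Int.even_mul_pred_self v) _ _
      have k1' : v • cupS (-1 : κˣ) (n + 1) (toKS n s)
          + v • v • cupS (-1 : κˣ) (n + 1) (toKS n s) = 0 := by
        rw [← mul_smul, ← add_smul, ← k1]; congr 1; ring
      have k2' : v • v • cupS (-1 : κˣ) (n + 1) (cupS (-1 : κˣ) n d)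
          - v • cupS (-1 : κˣ) (n + 1) (cupS (-1 : κˣ) n d) = 0 := by
        rw [← mul_smul, ← sub_smul, ← k2]; congr 1; ring
      generalize cupS (-1 : κˣ) (n + 1) (toKS n s) = A at *
      generalize cupS (D.ures a) (n + 1) (toKS n s) = B at *
      generalize cupS (-1 : κˣ) (n + 1) (cupS (-1 : κˣ) n d) = C at *
      generalize cupS (-1 : κˣ) (n + 1) (cupS (D.ures a) n d) = E at *
      have : v • (A + B) - (v • B - 0 + v • -E) + (v • v • A - v • (C + E) + v • v • C)
          = (v • A + v • v • A) + (v • v • C - v • C) := by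
        rw [smul_add, smul_neg, smul_add]; abel
      rw [this, k1', k2', add_zero]
    · rcases lt_trichotomy (D.ord b) 0 with hb | hb | hb
      · obtain ⟨h1, -⟩ := D.ures_of_neg b a (by rw [add_comm]; exact h) hb
        omega
      · rw [ha, hb]
        simp only [zero_smul, zero_sub, map_neg, add_zero, neg_neg, map_add]
        rw [cupS_cupS_eq_zero _ _ (D.ures_add a b h ha hb)]
      · obtain ⟨-, h2⟩ := D.ures_of_pos b a (by rw [add_comm]; exact h) hb
        rw [h2, ha, cupS_one]
        simp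
    · obtain ⟨h1, h2⟩ := D.ures_of_pos a b h ha
      rw [h2, h1, cupS_one, cupS_one]
      simp

/-- The pair (specialisation, tame symbol) on `K_n(F)`. -/
noncomputable def tamePair {F : Type u} {κ : Type v} [Field F] [Field κ] (D : DV F κ) (n : ℕ) :
    MilnorK F n →+ (MilnorK κ n × KS κ n) :=
  liftOp (A := fun n => MilnorK κ n × KS κ n) ((one0, 0) : MilnorK κ 0 × KS κ 0) (theta D)
    (theta_mul D) (theta_steinberg D) n

/-- The specialisation map `K_n(F) → K_n(κ)` (with respect to the chosen uniformiser). -/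
noncomputable def spec {F : Type u} {κ : Type v} [Field F] [Field κ] (D : DV F κ) (n : ℕ) :
    MilnorK F n →+ MilnorK κ n :=
  (AddMonoidHom.fst _ _).comp (tamePair D n)

/-- The tame symbol (residue map) `K_(n+1)(F) → K_n(κ)`. -/
noncomputable def tame {F : Type u} {κ : Type v} [Field F] [Field κ] (D : DV F κ) (n : ℕ) :
    MilnorK F (n + 1) →+ MilnorK κ n :=
  (AddMonoidHom.snd (MilnorK κ (n + 1)) (MilnorK κ n)).comp (tamePair D (n + 1))

end Pool.Agent.H62.MK
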