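import Mathlib
import Pool.Agent.H62.MK.Defs

/-!
# Places of Dedekind domains and of rational function fields, Bass-Tate norms, norms along a tower
-/

namespace Pool.Agent.H62.MK

open Function IsDedekindDomain Polynomial

universe u v w

section place

variable {R : Type u} [CommRing R] [IsDedekindDomain R] {K : Type v} [Field K] [Algebra R K]
  [IsFractionRing R K] {κ : Type w} [Field κ]

/-- The residue map on the localisation of `R` at `v` extending a surjection `R → κ` with kernel
`v`. -/
noncomputable def placeRes (v : HeightOneSpectrum R) (ρ : R →+* κ)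
    (hker : RingHom.ker ρ = v.asIdeal) :
    HeightOneSpectrum.valuationSubringAtPrime K v →+* κ :=
  IsLocalization.lift (M := v.asIdeal.primeCompl) (g := ρ) (fun y => by
    rw [isUnit_iff_ne_zero]
    intro h
    exact y.2 ((SetLike.ext_iff.1 hker (y : R)).1 h))

theorem placeRes_algebraMap (v : HeightOneSpectrum R) (ρ : R →+* κ)
    (hker : RingHom.ker ρ = v.asIdeal) (r : R) :
    placeRes (K := K) v ρ hker (algebraMap R _ r) = ρ r :=
  IsLocalization.lift_eq _ _

theorem mem_atPrime_iff (v : HeightOneSpectrum R) (x : K) :
    x ∈ (HeightOneSpectrum.valuationSubringAtPrime K v).toSubring ↔ v.valuation K x ≤ 1 := by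
  show x ∈ HeightOneSpectrum.valuationSubringAtPrime K v ↔ _
  rw [HeightOneSpectrum.valuationSubringAtPrime_eq_valuationSubring]
  exact Valuation.mem_valuationSubring_iff _ _

/-- The discrete valuation of the fraction field of a Dedekind domain attached to a nonzero prime,
with a given surjection of `R` onto the residue field. -/
noncomputable def placeDV (v : HeightOneSpectrum R) (ρ : R →+* κ) (hρ : Surjective ρ)
    (hker : RingHom.ker ρ = v.asIdeal) : DV K κ where
  ord a := -WithZero.log (v.valuation K (a : K))
  ord_mul a b := by
    rw [Units.val_mul, map_mul, WithZero.log_mul ((Valuation.ne_zero_iff _).2 a.ne_zero)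
      ((Valuation.ne_zero_iff _).2 b.ne_zero)]
    ring
  ord_surj := by
    intro m
    obtain ⟨x, hx⟩ := v.valuation_surjective K (WithZero.exp (-m))
    have hx0 : x ≠ 0 := by
      intro h
      rw [h, map_zero] at hx
      exact WithZero.exp_ne_zero hx.symm
    refine ⟨Units.mk0 x hx0, ?_⟩
    show -WithZero.log (v.valuation K x) = m
    rw [hx, WithZero.log_exp, neg_neg]
  ring := (HeightOneSpectrum.valuationSubringAtPrime K v).toSubring
  mem_ring a := by
    rw [mem_atPrime_iff]
    have ha := (Valuation.ne_zero_iff (v.valuation K)).2 a.ne_zero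
    constructor
    · intro h
      have := WithZero.log_le_log ha one_ne_zero |>.2 h
      rw [WithZero.log_one] at this
      omega
    · intro h
      have h2 : WithZero.log (v.valuation K (a : K)) ≤ WithZero.log 1 := by
        rw [WithZero.log_one]; omega
      exact (WithZero.log_le_log ha one_ne_zero).1 h2
  res := placeRes v ρ hker
  res_surj := by
    intro c
    obtain ⟨r, hr⟩ := hρ c
    exact ⟨algebraMap R (HeightOneSpectrum.valuationSubringAtPrime K v) r,
      by rw [← hr]; exact placeRes_algebraMap v ρ hker r⟩
  res_eq_zero a h := by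
    have ha := (Valuation.ne_zero_iff (v.valuation K)).2 a.ne_zero
    obtain ⟨n, d, hnd⟩ := v.exists_primeCompl_mul_eq_of_integer (K := K) (a : K)
      ((mem_atPrime_iff v _).1 h)
    have hd : v.valuation K (algebraMap R K d) = 1 := by
      rw [HeightOneSpectrum.valuation_of_algebraMap]
      exact (v.intValuation_eq_one_iff_mem_primeCompl d).2 d.2
    have e1 : (⟨(a : K), h⟩ : HeightOneSpectrum.valuationSubringAtPrime K v)
        * algebraMap R _ (d : R) = algebraMap R _ n := by
      apply Subtype.ext
      exact hnd
    have e2 := congrArg (placeRes (K := K) v ρ hker) e1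
    rw [map_mul, placeRes_algebraMap, placeRes_algebraMap] at e2
    have hρd : ρ (d : R) ≠ 0 := by
      intro h0
      exact d.2 ((SetLike.ext_iff.1 hker (d : R)).1 h0)
    have h3 : placeRes v ρ hker ⟨(a : K), h⟩ = 0 ↔ n ∈ v.asIdeal := by
      have hk : n ∈ v.asIdeal ↔ n ∈ RingHom.ker ρ := (SetLike.ext_iff.1 hker n).symm
      rw [hk, RingHom.mem_ker, ← e2]
      constructor
      · intro h0; rw [h0, zero_mul]
      · intro h0; exact (mul_eq_zero.1 h0).resolve_right hρd
    have h4 : v.valuation K (a : K) = v.intValuation n := by
      have h5 : v.valuation K (algebraMap R K n) = v.intValuation n :=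
        v.valuation_of_algebraMap n
      rw [← h5, ← hnd, map_mul, hd, mul_one]
    rw [h3, ← HeightOneSpectrum.intValuation_lt_one_iff_mem, ← h4]
    constructor
    · intro h5
      have := WithZero.log_lt_log ha one_ne_zero |>.2 h5
      rw [WithZero.log_one] at this
      omega
    · intro h5
      have h2 : WithZero.log (v.valuation K (a : K)) < WithZero.log 1 := by
        rw [WithZero.log_one]; omega
      exact (WithZero.log_lt_log ha one_ne_zero).1 h2

theorem placeDV_ord (v : HeightOneSpectrum R) (ρ : R →+* κ) (hρ : Surjective ρ)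
    (hker : RingHom.ker ρ = v.asIdeal) (a : Kˣ) :
    (placeDV v ρ hρ hker).ord a = -WithZero.log (v.valuation K (a : K)) := rfl

theorem placeDV_mem (v : HeightOneSpectrum R) (ρ : R →+* κ) (hρ : Surjective ρ)
    (hker : RingHom.ker ρ = v.asIdeal) (r : R) :
    algebraMap R K r ∈ (placeDV (K := K) v ρ hρ hker).ring := by
  show algebraMap R K r ∈ (HeightOneSpectrum.valuationSubringAtPrime K v).toSubring
  rw [mem_atPrime_iff]
  exact v.valuation_le_one r

theorem placeDV_res (v : HeightOneSpectrum R) (ρ : R →+* κ) (hρ : Surjective ρ)
    (hker : RingHom.ker ρ = v.asIdeal) (r : R) (h) :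
    (placeDV (K := K) v ρ hρ hker).res ⟨algebraMap R K r, h⟩ = ρ r :=
  placeRes_algebraMap v ρ hker r

end place

section ratfunc

variable (F : Type u) [Field F]

/-- The prime of `F[t]` generated by an irreducible polynomial. -/
noncomputable def polyPrime {F : Type u} [Field F] (P : F[X]) (hP : Irreducible P) :
    HeightOneSpectrum F[X] where
  asIdeal := Ideal.span {P}
  isPrime := (Ideal.span_singleton_prime hP.ne_zero).2 hP.prime
  ne_bot := by simpa using hP.ne_zero

/-- The place of `F(t)` at an irreducible polynomial `P`, with residue field `F[t]/(P)`. -/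
noncomputable def finPlace {F : Type u} [Field F] (P : F[X]) [Fact (Irreducible P)] :
    DV (RatFunc F) (AdjoinRoot P) :=
  placeDV (polyPrime P Fact.out) (AdjoinRoot.mk P) AdjoinRoot.mk_surjective
    (by
      ext r
      rw [RingHom.mem_ker, AdjoinRoot.mk_eq_zero]
      exact Ideal.mem_span_singleton.symm)

/-- The place `t = 0` of `F(t)`, with residue field `F`. -/
noncomputable def zeroPlace : DV (RatFunc F) F :=
  placeDV (polyPrime (X : F[X]) irreducible_X) (Polynomial.evalRingHom 0)
    (fun c => ⟨C c, by simp⟩)
    (by
      ext r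
      rw [RingHom.mem_ker]
      show eval 0 r = 0 ↔ r ∈ Ideal.span {X}
      rw [Ideal.mem_span_singleton, X_dvd_iff, coeff_zero_eq_eval_zero])

/-- The substitution `t ↦ 1/t` on `F(t)`. -/
noncomputable def invSubst : RatFunc F →+* RatFunc F :=
  IsFractionRing.lift (A := F[X]) (K := RatFunc F)
    (g := ((Polynomial.aeval (R := F) (RatFunc.X⁻¹ : RatFunc F)) : F[X] →ₐ[F] RatFunc F).toRingHom)
    (by
      have h1 : Transcendental F (RatFunc.X : RatFunc F) := RatFunc.transcendental_X
      have h2 : Transcendental F ((RatFunc.X : RatFunc F)⁻¹) := fun h => h1 (by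
        have := h.inv
        rwa [inv_inv] at this)
      exact transcendental_iff_injective.1 h2)

/-- The tame symbol of `F(t)` at infinity, `K_(n+1)(F(t)) → K_n(F)`: the tame symbol at `0` after
the substitution `t ↦ 1/t`. -/
noncomputable def tameInf (n : ℕ) : MilnorK (RatFunc F) (n + 1) →+ MilnorK F n :=
  (tame (zeroPlace F) n).comp (map (invSubst F) (n + 1))

/-- Elements of `K_(n+1)(F(t))` whose tame symbols vanish at all finite places except `P`. -/
def OnlyAt {F : Type u} [Field F] (P : F[X]) (n : ℕ) (a : MilnorK (RatFunc F) (n + 1)) : Prop :=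
  ∀ (Q : F[X]) [Fact (Irreducible Q)], Q.Monic → Q ≠ P → tame (finPlace Q) n a = 0

/-- The Bass-Tate norm `N : K_n(F[t]/(P)) → K_n(F)` for a monic irreducible polynomial `P`: THE
homomorphism with `N(∂_P a) = - ∂_∞ a` for all `a` with `∂_Q a = 0` at all finite `Q ≠ P`. -/
noncomputable def polyNorm {F : Type u} [Field F] (P : F[X]) [Fact (Irreducible P)] (n : ℕ) :
    MilnorK (AdjoinRoot P) n →+ MilnorK F n :=
  open Classical in
  if h : ∃ N : MilnorK (AdjoinRoot P) n →+ MilnorK F n,
      ∀ a, OnlyAt P n a → N (tame (finPlace P) n a) = -tameInf F n a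
  then h.choose else 0

end ratfunc

section tower

variable {F : Type u} [Field F] {E : Type u} [Field E] [Algebra F E]

/-- The Bass-Tate norm of the simple extension `F(x)/F` with respect to the generator `x`. -/
noncomputable def simpleNorm (F : Type u) [Field F] {E : Type u} [Field E] [Algebra F E] (x : E)
    (n : ℕ) : MilnorK (IntermediateField.adjoin F {x}) n →+ MilnorK F n :=
  open Classical in
  if h : IsIntegral F x then
    haveI : Fact (Irreducible (minpoly F x)) := ⟨minpoly.irreducible h⟩
    (polyNorm (minpoly F x) n).comp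
      (map ((IntermediateField.adjoinRootEquivAdjoin F h).symm : _ ≃+* _).toRingHom n)
  else 0

/-- The composition of the norms along the tower `F ⊆ F(x_1) ⊆ F(x_1, x_2) ⊆ …`. -/
noncomputable def towerNorm (n : ℕ) : ∀ (l : List E) (F : Type u) [Field F] [Algebra F E],
    MilnorK E n →+ MilnorK F n
  | [], F, _, _ =>
    open Classical in
    if h : Function.Bijective (algebraMap F E) then
      map (RingEquiv.ofBijective (algebraMap F E) h).symm.toRingHom n
    else 0
  | (x :: l), F, _, _ =>
    (simpleNorm F x n).comp (towerNorm n l (IntermediateField.adjoin F {x}))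

/-- The norm `K_n(E) → K_n(F)` of a finite extension: the composition of the Bass-Tate norms along
the tower generated by a chosen basis. (By Kato's theorem it does not depend on the tower; this is
not needed for the definition.) -/
noncomputable def norm (F : Type u) (E : Type u) [Field F] [Field E] [Algebra F E] (n : ℕ) :
    MilnorK E n →+ MilnorK F n :=
  open Classical in
  if h : FiniteDimensional F E then
    towerNorm n (List.ofFn (Module.finBasis F E)) F
  else 0

end tower

end Pool.Agent.H62.MK
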