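import Mathlib
import Pool.Agent.H62.MK.Defs2

/-!
# The residue map of the Gersten complex attached to a one-dimensional local domain
-/

namespace Pool.Agent.H62.MK

open Function IsDedekindDomain

universe u

/-- The discrete valuation attached to a discrete valuation ring inside a field. -/
noncomputable def valDV {F : Type u} [Field F] (V : ValuationSubring F)
    [IsDiscreteValuationRing V] : DV F (IsLocalRing.ResidueField V) :=
  placeDV (R := V) (K := F) (IsDiscreteValuationRing.maximalIdeal V) (IsLocalRing.residue V)
    IsLocalRing.residue_surjective (IsLocalRing.ker_residue (R := V))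

section gersten

variable (O : Type u) [CommRing O] [IsLocalRing O] (F : Type u) [Field F] [Algebra O F]

/-- The discrete valuation rings of `F` which dominate the local ring `O`. -/
structure Dom where
  /-- the valuation ring -/
  val : ValuationSubring F
  dvr : IsDiscreteValuationRing val
  mem : ∀ a : O, algebraMap O F a ∈ val
  dom : ∀ a : O, a ∈ IsLocalRing.maximalIdeal O →
    (⟨algebraMap O F a, mem a⟩ : val) ∈ IsLocalRing.maximalIdeal val

variable {O F}

/-- The map `O → V` for a dominating discrete valuation ring. -/
def Dom.toVal (V : Dom O F) : O →+* V.val where
  toFun a := ⟨algebraMap O F a, V.mem a⟩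
  map_one' := by apply Subtype.ext; simp
  map_mul' a b := by apply Subtype.ext; simp
  map_zero' := by apply Subtype.ext; simp
  map_add' a b := by apply Subtype.ext; simp

theorem Dom.isLocalHom (V : Dom O F) : IsLocalHom V.toVal := by
  constructor
  intro a ha
  by_contra h
  have h2 := V.dom a ((IsLocalRing.mem_maximalIdeal a).2 h)
  exact (IsLocalRing.mem_maximalIdeal _).1 h2 ha

/-- The extension of residue fields. -/
noncomputable def Dom.resMap (V : Dom O F) :
    IsLocalRing.ResidueField O →+* IsLocalRing.ResidueField V.val :=
  haveI := V.isLocalHom
  IsLocalRing.ResidueField.map V.toVal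

/-- The norm of Milnor K-groups for a finite extension given by a ring homomorphism. -/
noncomputable def normOf {κ κ' : Type u} [Field κ] [Field κ'] (f : κ →+* κ') (n : ℕ) :
    MilnorK κ' n →+ MilnorK κ n :=
  letI := f.toAlgebra
  norm κ κ' n

/-- The component of the Gersten differential: the composition of the tame symbol and the norm. -/
noncomputable def Dom.residue (V : Dom O F) (n : ℕ) :
    MilnorK F (n + 1) →+ MilnorK (IsLocalRing.ResidueField O) n :=
  haveI := V.dvr
  (normOf V.resMap n).comp (tame (valDV V.val) n)

variable (O F)

/-- The residue map `K_(n+1)(F) → K_n(κ)` of the Gersten complex for a one-dimensional local domain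
`O` with fraction field `F` and residue field `κ`: the sum over all discrete valuation rings of `F`
dominating `O` (the localisations of the normalisation of `O`) of the tame symbol followed by the
norm of the residue field extension. -/
noncomputable def gerstenResidue (n : ℕ) :
    MilnorK F (n + 1) →+ MilnorK (IsLocalRing.ResidueField O) n :=
  ∑ᶠ V : Dom O F, V.residue n

end gersten

end Pool.Agent.H62.MK
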