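import Mathlib
import Pool.Agent.H62.MK.Defs3

/-!
# Basic facts on tame symbols
-/

namespace Pool.Agent.H62.MK

open Function IsDedekindDomain

universe u v w

/-- Induction on elements of `K_(n+1)`: they are sums of `{a} x`. -/
theorem MilnorK.cup_induction {R : Type u} [CommRing R] {n : ℕ} {p : MilnorK R (n + 1) → Prop}
    (x : MilnorK R (n + 1)) (h0 : p 0) (hc : ∀ (a : Rˣ) (y : MilnorK R n), p (cup a y))
    (ha : ∀ x y, p x → p y → p (x + y)) : p x := by
  refine MilnorK.induction (p := fun z => p z ∧ p (-z)) x ⟨h0, by simpa using h0⟩ ?_ ?_ ?_ |>.1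
  · intro a
    have e : sym a = cup (a 0) (sym (Fin.tail a)) := by
      rw [cup_sym, Fin.cons_self_tail]
    rw [e]
    refine ⟨hc _ _, ?_⟩
    rw [← map_neg]
    exact hc _ _
  · rintro x ⟨h1, h2⟩
    exact ⟨h2, by simpa using h1⟩
  · rintro x y ⟨h1, h2⟩ ⟨h3, h4⟩
    refine ⟨ha _ _ h1 h3, ?_⟩
    rw [neg_add]
    exact ha _ _ h2 h4

section tame

variable {F : Type u} {κ : Type v} [Field F] [Field κ] (D : DV F κ)

theorem tamePair_cup (n : ℕ) (a : Fˣ) (x : MilnorK F n) :
    tamePair D (n + 1) (cup a x) = theta D n a (tamePair D n x) :=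
  liftOp_cup _ _ _ _ _ _ _

theorem spec_cup (n : ℕ) (a : Fˣ) (x : MilnorK F n) :
    spec D (n + 1) (cup a x) = cup (D.ures a) (spec D n x) := by
  show (tamePair D (n + 1) (cup a x)).1 = cup (D.ures a) (tamePair D n x).1
  rw [tamePair_cup]; rfl

/-- The recursion formula for the tame symbol. -/
theorem tame_cup_cup (n : ℕ) (a : Fˣ) (x : MilnorK F (n + 1)) :
    tame D (n + 1) (cup a x) = D.ord a • spec D (n + 1) x - cup (D.ures a) (tame D n x)
      + D.ord a • cup (-1 : κˣ) (tame D n x) := by
  show (tamePair D (n + 2) (cup a x)).2 = _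
  rw [tamePair_cup]; rfl

theorem tame_zero_cup (a : Fˣ) (x : MilnorK F 0) :
    tame D 0 (cup a x) = D.ord a • spec D 0 x := by
  show (tamePair D 1 (cup a x)).2 = _
  rw [tamePair_cup]
  show D.ord a • toKS 0 (tamePair D 0 x).1 - cupS (D.ures a) 0 (tamePair D 0 x).2
    + D.ord a • cupS (-1) 0 (tamePair D 0 x).2 = _
  have h1 : cupS (D.ures a) 0 (tamePair D 0 x).2 = 0 := rfl
  have h2 : cupS (-1 : κˣ) 0 (tamePair D 0 x).2 = 0 := rfl
  rw [h1, h2, sub_zero, smul_zero, add_zero]
  rfl

/-- The tame symbol is linear (up to sign) over units. -/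
theorem tame_unit_cup (n : ℕ) (a : Fˣ) (ha : D.ord a = 0) (x : MilnorK F (n + 1)) :
    tame D (n + 1) (cup a x) = -cup (D.ures a) (tame D n x) := by
  rw [tame_cup_cup, ha]; simp

theorem tame_unit_cup_zero (a : Fˣ) (ha : D.ord a = 0) (x : MilnorK F 0) :
    tame D 0 (cup a x) = 0 := by
  rw [tame_zero_cup, ha, zero_smul]

/-- The tame symbol kills `{a} x` if `a` is a unit with residue 1. -/
theorem tame_one_unit_cup (n : ℕ) (a : Fˣ) (ha : D.ord a = 0) (h1 : D.ures a = 1)
    (x : MilnorK F n) : tame D n (cup a x) = 0 := by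
  cases n with
  | zero => exact tame_unit_cup_zero D a ha x
  | succ n => rw [tame_unit_cup D n a ha, h1, cup_one, neg_zero]

/-- The tame symbol of a symbol of units vanishes. -/
theorem tame_sym_units : ∀ (n : ℕ) (a : Fin (n + 1) → Fˣ) (_ : ∀ i, D.ord (a i) = 0),
    tame D n (sym a) = 0
  | 0, a, h => by
    have e : sym a = cup (a 0) (sym (Fin.tail a)) := by rw [cup_sym, Fin.cons_self_tail]
    rw [e]
    exact tame_unit_cup_zero D _ (h 0) _
  | (n + 1), a, h => by
    have e : sym a = cup (a 0) (sym (Fin.tail a)) := by rw [cup_sym, Fin.cons_self_tail]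
    rw [e, tame_unit_cup D n _ (h 0), tame_sym_units n (Fin.tail a) (fun i => h i.succ),
      map_zero, neg_zero]

theorem spec_sym (n : ℕ) (a : Fin n → Fˣ) :
    spec D n (sym a) = sym (fun i => D.ures (a i)) := by
  induction n with
  | zero =>
    show (tamePair D 0 (sym a)).1 = _
    have : tamePair D 0 (sym a) = ((one0, 0) : MilnorK κ 0 × KS κ 0) := liftOp_zero _ _ _ _ _
    rw [this]
    show one0 = _
    unfold one0
    congr 1
    funext i
    exact i.elim0
  | succ n ih =>
    have e : sym a = cup (a 0) (sym (Fin.tail a)) := by rw [cup_sym, Fin.cons_self_tail]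
    rw [e, spec_cup, ih, cup_sym]
    congr 1
    funext i
    refine Fin.cases ?_ (fun j => ?_) i
    · simp
    · simp [Fin.tail]

theorem spec_zero_one : spec D 0 one0 = one0 := by
  unfold one0
  rw [spec_sym]
  congr 1
  funext i
  exact i.elim0

/-- The formula `∂ {a, u_1, …, u_n} = ord(a) {ū_1, …, ū_n}` for units `u_i`. -/
theorem tame_cup_sym_units (n : ℕ) (a : Fˣ) (u : Fin n → Fˣ) (hu : ∀ i, D.ord (u i) = 0) :
    tame D n (cup a (sym u)) = D.ord a • sym (fun i => D.ures (u i)) := by
  cases n with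
  | zero => rw [tame_zero_cup, spec_sym]
  | succ n =>
    rw [tame_cup_cup, tame_sym_units D n u hu, spec_sym]
    simp

/-- The order on `K_1 = F^*`. -/
theorem tame_zero_sym (a : Fˣ) : tame D 0 (cup a one0) = D.ord a • one0 := by
  rw [tame_zero_cup, spec_zero_one]

end tame

section generators

variable {F : Type u} {κ : Type v} [Field F] [Field κ] (D : DV F κ)

/-- `K_(n+1)(F)` is generated by symbols of units and symbols `{ϖ, u_1, …, u_n}` with `ord ϖ = 1`
and units `u_i`. -/
theorem MilnorK.unit_induction (ϖ : Fˣ) (hϖ : D.ord ϖ = 1) (n : ℕ)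
    {p : MilnorK F (n + 1) → Prop} (x : MilnorK F (n + 1)) (h0 : p 0)
    (hu : ∀ u : Fin (n + 1) → Fˣ, (∀ i, D.ord (u i) = 0) → p (sym u))
    (hϖu : ∀ u : Fin n → Fˣ, (∀ i, D.ord (u i) = 0) → p (cup ϖ (sym u)))
    (hn : ∀ x, p x → p (-x)) (ha : ∀ x y, p x → p y → p (x + y)) : p x := by
  have hz : ∀ (m : ℤ) x, p x → p (m • x) := by
    intro m x hx
    have hnat : ∀ k : ℕ, p (k • x) := by
      intro k
      induction k with
      | zero => simpa using h0
      | succ k ih => rw [succ_nsmul]; exact ha _ _ ih hx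
    cases m with
    | ofNat k => simpa using hnat k
    | negSucc k =>
      rw [negSucc_zsmul]
      exact hn _ (hnat _)
  -- stronger statement: all n at once
  have key : ∀ (n : ℕ) (y : MilnorK F (n + 1)),
      y ∈ AddSubgroup.closure ({z | ∃ u : Fin (n + 1) → Fˣ, (∀ i, D.ord (u i) = 0) ∧ z = sym u} ∪
        {z | ∃ u : Fin n → Fˣ, (∀ i, D.ord (u i) = 0) ∧ z = cup ϖ (sym u)}) := by
    intro n
    have hdec : ∀ a : Fˣ, ∃ (m : ℤ) (u : Fˣ), D.ord u = 0 ∧ a = ϖ ^ m * u := by
      intro a
      refine ⟨D.ord a, ϖ ^ (-D.ord a) * a, ?_, ?_⟩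
      · rw [D.ord_mul, D.ord_zpow, hϖ]; ring
      · rw [← mul_assoc, ← zpow_add]; simp
    induction n with
    | zero =>
      intro y
      refine MilnorK.cup_induction y (AddSubgroup.zero_mem _) ?_ (fun x y hx hy => AddSubgroup.add_mem _ hx hy)
      intro a z
      obtain ⟨m, u, hu, rfl⟩ := hdec a
      rw [cup_mul, cup_zpow]
      refine MilnorK.induction (p := fun z => m • cup ϖ z + cup u z ∈ _) z ?_ ?_ ?_ ?_
      · simpa using AddSubgroup.zero_mem _
      · intro e
        refine AddSubgroup.add_mem _ (AddSubgroup.zsmul_mem _ (AddSubgroup.subset_closure ?_) _)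
          (AddSubgroup.subset_closure ?_)
        · exact Or.inr ⟨e, fun i => i.elim0, rfl⟩
        · refine Or.inl ⟨Fin.cons u e, ?_, (cup_sym u e)⟩
          intro i
          refine Fin.cases ?_ (fun j => j.elim0) i
          simpa using hu
      · intro x hx
        rw [map_neg, map_neg, smul_neg, ← neg_add]
        exact AddSubgroup.neg_mem _ hx
      · intro x y hx hy
        have := AddSubgroup.add_mem _ hx hy
        have e : m • cup ϖ (x + y) + cup u (x + y)
            = (m • cup ϖ x + cup u x) + (m • cup ϖ y + cup u y) := by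
          rw [map_add, map_add, smul_add]; abel
        rw [e]; exact this
    | succ n ih =>
      intro y
      refine MilnorK.cup_induction y (AddSubgroup.zero_mem _) ?_ (fun x y hx hy => AddSubgroup.add_mem _ hx hy)
      intro a z
      obtain ⟨m, u, hu, rfl⟩ := hdec a
      rw [cup_mul, cup_zpow]
      -- reduce to z a generator
      have hz := ih z
      refine AddSubgroup.closure_induction (p := fun z _ => m • cup ϖ z + cup u z ∈ _)
        ?_ ?_ ?_ ?_ hz
      · rintro z (⟨w, hw, rfl⟩ | ⟨w, hw, rfl⟩)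
        · refine AddSubgroup.add_mem _ (AddSubgroup.zsmul_mem _ (AddSubgroup.subset_closure ?_) _)
            (AddSubgroup.subset_closure ?_)
          · exact Or.inr ⟨w, hw, rfl⟩
          · refine Or.inl ⟨Fin.cons u w, ?_, (cup_sym u w)⟩
            intro i
            refine Fin.cases ?_ (fun j => ?_) i
            · simpa using hu
            · simpa using hw j
        · have hm1 : D.ord (-1 : Fˣ) = 0 := by rw [D.ord_neg, D.ord_one]
          have e1 : cup ϖ (cup ϖ (sym w)) = cup ϖ (sym (Fin.cons (-1) w : Fin (n + 1) → Fˣ)) := by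
            rw [cup_cup_self, cup_sym]
          have e2 : cup u (cup ϖ (sym w)) = -cup ϖ (sym (Fin.cons u w : Fin (n + 1) → Fˣ)) := by
            rw [cup_anticomm, cup_sym u]
          rw [e1, e2]
          refine AddSubgroup.add_mem _ (AddSubgroup.zsmul_mem _ (AddSubgroup.subset_closure ?_) _)
            (AddSubgroup.neg_mem _ (AddSubgroup.subset_closure ?_))
          · refine Or.inr ⟨_, ?_, rfl⟩
            intro i
            refine Fin.cases ?_ (fun j => ?_) i
            · simpa using hm1
            · simpa using hw j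
          · refine Or.inr ⟨_, ?_, rfl⟩
            intro i
            refine Fin.cases ?_ (fun j => ?_) i
            · simpa using hu
            · simpa using hw j
      · simpa using AddSubgroup.zero_mem _
      · intro x y _ _ hx hy
        have := AddSubgroup.add_mem _ hx hy
        have e : m • cup ϖ (x + y) + cup u (x + y)
            = (m • cup ϖ x + cup u x) + (m • cup ϖ y + cup u y) := by
          rw [map_add, map_add, smul_add]; abel
        rw [e]; exact this
      · intro x _ hx
        rw [map_neg, map_neg, smul_neg, ← neg_add]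
        exact AddSubgroup.neg_mem _ hx
  refine AddSubgroup.closure_induction (p := fun y _ => p y) ?_ h0 (fun x y _ _ hx hy => ha x y hx hy)
    (fun x _ hx => hn x hx) (key n x)
  rintro z (⟨u, hu', rfl⟩ | ⟨u, hu', rfl⟩)
  · exact hu u hu'
  · exact hϖu u hu'

end generators

end Pool.Agent.H62.MK
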