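import Mathlib
import Pool.Agent.H62.MK.Tame

/-!
# Ring level facts on the residue maps of the Gersten complex
-/

namespace Pool.Agent.H62.MK

open Function IsDedekindDomain

universe u v w

section valDV

variable {F : Type u} [Field F] (V : ValuationSubring F) [IsDiscreteValuationRing V]

theorem valDV_mem (x : F) : x ∈ (valDV V).ring ↔ x ∈ V := by
  constructor
  · intro h
    have h1 : (IsDiscreteValuationRing.maximalIdeal V).valuation F x ≤ 1 :=
      (mem_atPrime_iff _ _).1 h
    obtain ⟨a, ha⟩ := IsDiscreteValuationRing.exists_lift_of_le_one h1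
    rw [← ha]
    exact a.2
  · intro h
    exact placeDV_mem (R := V) (K := F) (IsDiscreteValuationRing.maximalIdeal V)
      (IsLocalRing.residue V) IsLocalRing.residue_surjective (IsLocalRing.ker_residue (R := V))
      ⟨x, h⟩

theorem valDV_res (x : V) (h) : (valDV V).res ⟨(x : F), h⟩ = IsLocalRing.residue V x :=
  placeDV_res (R := V) (K := F) (IsDiscreteValuationRing.maximalIdeal V)
    (IsLocalRing.residue V) IsLocalRing.residue_surjective (IsLocalRing.ker_residue (R := V)) x h

theorem valDV_ord_eq_zero (a : Fˣ) (h1 : (a : F) ∈ V) (h2 : ((a⁻¹ : Fˣ) : F) ∈ V) :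
    (valDV V).ord a = 0 := by
  have e1 := ((valDV V).mem_ring a).1 ((valDV_mem V _).2 h1)
  have e2 := ((valDV V).mem_ring a⁻¹).1 ((valDV_mem V _).2 h2)
  rw [(valDV V).ord_inv] at e2
  omega

end valDV

section dom

variable {O : Type u} [CommRing O] [IsLocalRing O] {F : Type u} [Field F] [Algebra O F]

/-- Elements integral over a subring of the image of `O` lie in every dominating valuation ring. -/
theorem Dom.mem_of_isIntegral (V : Dom O F) {O' : Type w} [CommRing O'] (g : O' →+* O) (b : F)
    (hb : ((algebraMap O F).comp g).IsIntegralElem b) : b ∈ V.val := by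
  have h1 : IsIntegral V.val b := by
    obtain ⟨p, hp, hp0⟩ := hb
    refine ⟨p.map (V.toVal.comp g), hp.map _, ?_⟩
    rw [Polynomial.eval₂_map]
    exact hp0
  obtain ⟨y, hy⟩ := IsIntegrallyClosed.isIntegral_iff.1 h1
  rw [← hy]
  exact y.2

theorem gerstenResidue_mem (n : ℕ) (x : MilnorK F (n + 1))
    (U : AddSubgroup (MilnorK (IsLocalRing.ResidueField O) n))
    (h : ∀ V : Dom O F, V.residue n x ∈ U) : gerstenResidue O F n x ∈ U := by
  unfold gerstenResidue
  by_cases hf : (support fun V : Dom O F => V.residue n).Finite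
  · rw [finsum_eq_sum _ hf, AddMonoidHom.finset_sum_apply]
    exact sum_mem fun V _ => h V
  · rw [finsum_of_infinite_support hf]
    exact zero_mem _

theorem Dom.mem_of_unit (V : Dom O F) (a : Fˣ) (h : ∃ u : Oˣ, algebraMap O F u = a) :
    (a : F) ∈ V.val ∧ ((a⁻¹ : Fˣ) : F) ∈ V.val := by
  obtain ⟨u, hu⟩ := h
  refine ⟨hu ▸ V.mem _, ?_⟩
  have : ((a⁻¹ : Fˣ) : F) = algebraMap O F ((u⁻¹ : Oˣ) : O) := by
    rw [Units.val_inv_eq_inv_val, ← hu]
    have h1 : algebraMap O F (u : O) * algebraMap O F ((u⁻¹ : Oˣ) : O) = 1 := by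
      rw [← map_mul]; simp
    exact (eq_inv_of_mul_eq_one_right h1).symm
  rw [this]
  exact V.mem _

/-- The residue of a symbol whose entries come from units of `O` is zero. -/
theorem gerstenResidue_sym_units (n : ℕ) (a : Fin (n + 1) → Fˣ)
    (h : ∀ i, ∃ u : Oˣ, algebraMap O F u = a i) : gerstenResidue O F n (sym a) = 0 := by
  refine (AddSubgroup.mem_bot).1 (gerstenResidue_mem n _ ⊥ fun V => ?_)
  rw [AddSubgroup.mem_bot]
  haveI := V.dvr
  unfold Dom.residue
  rw [AddMonoidHom.comp_apply]
  have : tame (valDV V.val) n (sym a) = 0 :=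
    tame_sym_units _ n a fun i =>
      valDV_ord_eq_zero V.val (a i) (V.mem_of_unit (a i) (h i)).1 (V.mem_of_unit (a i) (h i)).2
  erw [this]
  exact map_zero _

/-- The residue of a symbol whose entries are units of the integral closure of `O` is zero. -/
theorem gerstenResidue_sym_integral (n : ℕ) (a : Fin (n + 1) → Fˣ)
    (h : ∀ i, IsIntegral O ((a i : Fˣ) : F) ∧ IsIntegral O (((a i)⁻¹ : Fˣ) : F)) :
    gerstenResidue O F n (sym a) = 0 := by
  refine (AddSubgroup.mem_bot).1 (gerstenResidue_mem n _ ⊥ fun V => ?_)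
  rw [AddSubgroup.mem_bot]
  haveI := V.dvr
  unfold Dom.residue
  rw [AddMonoidHom.comp_apply]
  have : tame (valDV V.val) n (sym a) = 0 :=
    tame_sym_units _ n a fun i =>
      valDV_ord_eq_zero V.val (a i)
        (V.mem_of_isIntegral (RingHom.id O) _ (by have := (h i).1; exact this))
        (V.mem_of_isIntegral (RingHom.id O) _ (by have := (h i).2; exact this))
  erw [this]
  exact map_zero _

end dom

section integral

/-- `1 + ϖ^N b` is a unit of the integral closure of a local ring. -/
theorem isIntegralElem_inv {O' : Type w} [CommRing O'] [IsLocalRing O'] {F : Type u} [Field F]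
    (g : O' →+* F) (ϖ : O') (hϖ : ϖ ∈ IsLocalRing.maximalIdeal O') (N : ℕ) (hN : 1 ≤ N) (b : F)
    (hb : g.IsIntegralElem b) (u : Fˣ) (hu : (u : F) = 1 + g ϖ ^ N * b) :
    g.IsIntegralElem ((u⁻¹ : Fˣ) : F) := by
  letI := g.toAlgebra
  have hb' : IsIntegral O' b := hb
  set B := integralClosure O' F with hB
  let b' : B := ⟨b, hb'⟩
  have hint : Algebra.IsIntegral O' B := inferInstance
  have hunit : IsUnit (1 + algebraMap O' B ϖ ^ N * b') := by
    by_contra hnu
    obtain ⟨M, hM, hmem⟩ := exists_max_ideal_of_mem_nonunits hnu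
    haveI := hM
    have hcomap : (M.comap (algebraMap O' B)).IsMaximal :=
      Ideal.isMaximal_comap_of_isIntegral_of_isMaximal M
    have h1 : M.comap (algebraMap O' B) = IsLocalRing.maximalIdeal O' :=
      IsLocalRing.eq_maximalIdeal hcomap
    have h2 : algebraMap O' B ϖ ∈ M := by
      have : ϖ ∈ M.comap (algebraMap O' B) := by rw [h1]; exact hϖ
      exact this
    have h3 : algebraMap O' B ϖ ^ N * b' ∈ M :=
      M.mul_mem_right _ (Ideal.pow_mem_of_mem M h2 N hN)
    have h4 : (1 : B) ∈ M := by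
      have := M.sub_mem hmem h3
      simpa using this
    exact hM.ne_top ((Ideal.eq_top_iff_one M).2 h4)
  obtain ⟨w, hw⟩ := hunit
  have hw' : ((w : B) : F) = (u : F) := by
    rw [hw, hu]
    rfl
  have h5 : (((w⁻¹ : Bˣ) : B) : F) = ((u⁻¹ : Fˣ) : F) := by
    rw [Units.val_inv_eq_inv_val, ← hw']
    have h6 : ((w : B) : F) * (((w⁻¹ : Bˣ) : B) : F) = 1 := by
      have : (w : B) * ((w⁻¹ : Bˣ) : B) = 1 := by simp
      exact congrArg (fun z : B => (z : F)) this
    exact eq_inv_of_mul_eq_one_right h6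
  rw [← h5]
  exact ((w⁻¹ : Bˣ) : B).2

end integral

end Pool.Agent.H62.MK
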