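import Pool.Agent.H17.KW.Cx
import Pool.Agent.H17.KE.Bad
import Pool.Agent.H62.MK.Res

/-! The columns of the Gersten complex of a noetherian scheme are finite. -/

open CategoryTheory TopologicalSpace Opposite AlgebraicGeometry Limits
open Pool.Agent.H17.KW Pool.Agent.H17.KE

universe u

namespace Pool.Agent.H62.MK

noncomputable section

variable {X : Scheme.{u}}

/-- The locus where a unit `a` of `κ(v)` does not come from a unit of the local ring. -/
def bad (v : X) (a : (kap X v)ˣ) : Set X :=
  {z : X | ∃ h : v ⤳ z, ¬ ∃ u : (X.presheaf.stalk z)ˣ, rho h u = a}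

theorem isClosed_bad' (v : X) (a : (kap X v)ˣ) : IsClosed (bad v a) :=
  isClosed_bad v (IsLocalRing.residue (X.presheaf.stalk v)) a

theorem not_mem_bad_self (v : X) (a : (kap X v)ˣ) : v ∉ bad v a := by
  rintro ⟨h, hne⟩
  apply hne
  obtain ⟨b, hb⟩ := IsLocalRing.residue_surjective (R := X.presheaf.stalk v) (a : kap X v)
  have hbu : IsUnit b := by
    by_contra hna
    have h3 : IsLocalRing.residue _ b = 0 :=
      (IsLocalRing.residue_eq_zero_iff b).mpr ((IsLocalRing.mem_maximalIdeal b).mpr hna)
    exact a.ne_zero (hb.symm.trans h3)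
  refine ⟨hbu.unit, ?_⟩
  unfold rho
  rw [TopCat.Presheaf.stalkSpecializes_refl]
  exact hb

/-- A point of codimension one more than `v` in the bad locus is minimal there. -/
theorem minimal_of_mem_bad (v : X) (a : (kap X v)ˣ) (w : X) (hw : Order.coheight w < ⊤)
    (hvw : Order.coheight w ≤ Order.coheight v + 1) :
    ∀ z' ∈ bad v a, z' ⤳ w → z' = w := by
  rintro z' hz' hz'w
  by_contra hne
  have h1 := coheight_lt_of_specializes hz'w hne hw
  obtain ⟨hvz', -⟩ := id hz'
  by_cases hvz : v = z'
  · subst hvz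
    exact not_mem_bad_self _ a hz'
  · have h3 := coheight_lt_of_specializes hvz' hvz (lt_trans h1 hw)
    have h4 : Order.coheight v + 1 ≤ Order.coheight z' := Order.add_one_le_of_lt h3
    exact absurd (lt_of_le_of_lt (hvw.trans h4) h1) (lt_irrefl _)

/-- On a noetherian scheme a closed subset has finitely many minimal points. -/
theorem finite_minimal' (X : Scheme.{u}) [IsNoetherian X] (Z : Set X) (hZ : IsClosed Z) :
    {z : X | z ∈ Z ∧ ∀ z' ∈ Z, z' ⤳ z → z' = z}.Finite := by
  classical
  choose V hV hfin using fun x : X => finite_minimal X x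
  obtain ⟨t, ht⟩ := isCompact_univ.elim_finite_subcover (fun x : X => ((V x : X.Opens) : Set X))
    (fun x => (V x).isOpen) (fun x _ => Set.mem_iUnion.2 ⟨x, hV x⟩)
  refine (Set.Finite.biUnion t.finite_toSet (fun x _ => hfin x Z hZ)).subset ?_
  rintro z ⟨hz1, hz2⟩
  obtain ⟨x, hx, hzx⟩ := Set.mem_iUnion₂.1 (ht (Set.mem_univ z))
  exact Set.mem_biUnion (x := x) hx ⟨hzx, hz1, hz2⟩

theorem entry_sym_eq_zero (v w : X) (n : ℕ) (a : Fin (n + 1) → (kap X v)ˣ)
    (h : ∀ i, w ∉ bad v (a i)) : entry v w n (sym a) = 0 := by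
  unfold entry
  split_ifs with hvw
  · unfold resOf
    letI := (rho hvw).toAlgebra
    refine gerstenResidue_sym_units n a fun i => ?_
    by_contra hne
    exact h i ⟨hvw, hne⟩
  · rfl

variable (X) in
/-- COLUMN FINITENESS. -/
theorem column_finite [IsNoetherian X] (d s : ℕ) (v : Pts X d (s + 1))
    (x : MilnorK (kap X v.1) (s + 1)) : {w : Pts X d s | entry v.1 w.1 s x ≠ 0}.Finite := by
  refine MilnorK.induction
    (p := fun x => {w : Pts X d s | entry v.1 w.1 s x ≠ 0}.Finite) x ?_ ?_ ?_ ?_
  · refine Set.finite_empty.subset ?_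
    intro w hw
    exact hw (map_zero _)
  · intro a
    have hbig : (⋃ i, {z : X | z ∈ bad v.1 (a i) ∧
        ∀ z' ∈ bad v.1 (a i), z' ⤳ z → z' = z}).Finite :=
      Set.finite_iUnion fun i => finite_minimal' X _ (isClosed_bad' v.1 (a i))
    refine Set.Finite.of_injOn (f := fun w : Pts X d s => w.1) ?_
      (fun a _ b _ hab => Subtype.ext hab) hbig
    intro w hw
    have h1 : ∃ i, w.1 ∈ bad v.1 (a i) := by
      by_contra hne
      push Not at hne
      exact hw (entry_sym_eq_zero v.1 w.1 s a hne)
    obtain ⟨i, hi⟩ := h1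
    refine Set.mem_iUnion.2 ⟨i, hi, ?_⟩
    have hw2 := w.2
    have hv2 := v.2
    have hwfin : Order.coheight w.1 < ⊤ := by
      by_contra hne
      have h3 : Order.coheight w.1 = ⊤ := not_lt_top_iff.1 hne
      rw [h3, top_add] at hw2
      exact ENat.top_ne_coe _ hw2
    refine minimal_of_mem_bad v.1 (a i) w.1 hwfin (le_of_eq ?_)
    have h4 : Order.coheight w.1 + (s : ℕ∞) = (Order.coheight v.1 + 1) + (s : ℕ∞) := by
      have h5 : Order.coheight v.1 + 1 + (s : ℕ∞) = Order.coheight v.1 + ((s + 1 : ℕ) : ℕ∞) := by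
        push_cast
        rw [add_assoc, add_comm (1 : ℕ∞)]
      exact hw2.trans (hv2.symm.trans h5.symm)
    exact WithTop.add_right_cancel (ENat.coe_ne_top s) h4
  · intro y hy
    refine hy.subset ?_
    intro w hw h0
    apply hw
    rw [map_neg, h0, neg_zero]
  · intro y z hy hz
    refine (hy.union hz).subset ?_
    intro w hw
    by_contra hne
    rw [Set.mem_union, not_or] at hne
    apply hw
    rw [map_add]
    have h1 : entry v.1 w.1 s y = 0 := not_not.1 hne.1
    have h2 : entry v.1 w.1 s z = 0 := not_not.1 hne.2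
    rw [h1, h2, add_zero]

variable (X) in
/-- The entries of a column. -/
theorem column_apply [IsNoetherian X] (d s : ℕ) (v : Pts X d (s + 1))
    (x : MilnorK (kap X v.1) (s + 1)) (w : Pts X d s) :
    column X d s v x w = entry v.1 w.1 s x := by
  classical
  unfold column
  rw [dif_pos (column_finite X d s v)]
  change (DFinsupp.mk (column_finite X d s v x).toFinset (fun w => entry v.1 w.1.1 s x) :
              Π₀ w : Pts X d s, MilnorK (kap X w.1) s) w = _
  by_cases hw : w ∈ (column_finite X d s v x).toFinset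
  · rw [DFinsupp.mk_of_mem hw]
  · rw [DFinsupp.mk_of_notMem hw]
    rw [Set.Finite.mem_toFinset] at hw
    by_contra hne
    exact hw (fun h0 => hne h0.symm)

theorem liftAddHom_single_any {ι : Type u} {β : ι → Type u} {γ : Type u} [D : DecidableEq ι]
    [D' : DecidableEq ι] [∀ i, AddZeroClass (β i)] [AddCommMonoid γ] (f : ∀ i, β i →+ γ)
    (i : ι) (x : β i) :
    @DFinsupp.liftAddHom ι γ β D _ _ f (@DFinsupp.single ι β _ D' i x) = f i x := by
  have h : D' = D := Subsingleton.elim _ _
  subst h
  exact DFinsupp.liftAddHom_apply_single f i x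

variable (X) in
/-- The differential on a family with one entry. -/
theorem dFam_single_apply [IsNoetherian X] (d s : ℕ) (v : Pts X d (s + 1))
    (x : MilnorK (kap X v.1) (s + 1)) (w : Pts X d s) [inst : DecidableEq (Pts X d (s + 1))] :
    dFam X d s (DFinsupp.single v x) w = entry v.1 w.1 s x := by
  rw [← column_apply X d s v x w]
  unfold dFam
  exact congrArg (fun f => f w) (liftAddHom_single_any (column X d s) v x)

variable (X) in
/-- helper12's wish (b) at scheme level. -/
theorem dFam_single_sym_units [IsNoetherian X] (d s : ℕ) (v : Pts X d (s + 1))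
    [DecidableEq (Pts X d (s + 1))] (a : Fin (s + 1) → (kap X v.1)ˣ) (w : Pts X d s)
    (h : ∀ hvw : v.1 ⤳ w.1, ∀ i, (rho hvw).IsIntegralElem ((a i : (kap X v.1)ˣ) : kap X v.1) ∧
      (rho hvw).IsIntegralElem (((a i)⁻¹ : (kap X v.1)ˣ) : kap X v.1)) :
    dFam X d s (DFinsupp.single v (sym a)) w = 0 := by
  rw [dFam_single_apply]
  unfold entry
  split_ifs with hvw
  · unfold resOf
    letI := (rho hvw).toAlgebra
    exact gerstenResidue_sym_integral s a fun i => h hvw i
  · rfl

end

end Pool.Agent.H62.MK
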