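import Mathlib
import Pool.Agent.H62.MK.Defs2

/-!
# Targets: the Milnor sequence of `K(F(t))`, Bass-Tate norms, Weil reciprocity
-/

namespace Pool.Agent.H62.MK

open Function IsDedekindDomain Polynomial

universe u v w

/-- Monic irreducible polynomials. -/
abbrev MonicIrr (F : Type u) [Field F] := {P : F[X] // P.Monic ∧ Irreducible P}

instance (F : Type u) [Field F] (P : MonicIrr F) : Fact (Irreducible P.1) := ⟨P.2.2⟩

/-- Existence: every element of `K_n(F[t]/P)` is the tame symbol of an element with no other finite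
residue. -/
def T_EX : Prop :=
  ∀ (F : Type u) [Field F] (P : F[X]) [Fact (Irreducible P)], P.Monic →
    ∀ (n : ℕ) (x : MilnorK (AdjoinRoot P) n),
      ∃ a : MilnorK (RatFunc F) (n + 1), OnlyAt P n a ∧ tame (finPlace P) n a = x

/-- Uniqueness: an element all of whose finite residues vanish is constant. -/
def T_UN : Prop :=
  ∀ (F : Type u) [Field F] (n : ℕ) (a : MilnorK (RatFunc F) (n + 1)),
    (∀ P : MonicIrr F, tame (finPlace P.1) n a = 0) →
      ∃ b : MilnorK F (n + 1), a = map (algebraMap F (RatFunc F)) (n + 1) b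

/-- Constants have no residue at infinity. -/
def T_INF0 : Prop :=
  ∀ (F : Type u) [Field F] (n : ℕ) (b : MilnorK F (n + 1)),
    tameInf F n (map (algebraMap F (RatFunc F)) (n + 1) b) = 0

/-- Finiteness of residues. -/
def T_FINP : Prop :=
  ∀ (F : Type u) [Field F] (n : ℕ) (a : MilnorK (RatFunc F) (n + 1)),
    {P : MonicIrr F | tame (finPlace P.1) n a ≠ 0}.Finite

/-- The defining property of the Bass-Tate norm. -/
def T_PN : Prop :=
  ∀ (F : Type u) [Field F] (P : F[X]) [Fact (Irreducible P)], P.Monic →
    ∀ (n : ℕ) (a : MilnorK (RatFunc F) (n + 1)), OnlyAt P n a →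
      polyNorm P n (tame (finPlace P) n a) = -tameInf F n a

/-- Weil reciprocity. -/
def T_REC : Prop :=
  ∀ (F : Type u) [Field F] (n : ℕ) (a : MilnorK (RatFunc F) (n + 1)),
    (∑ᶠ P : MonicIrr F, polyNorm P.1 n (tame (finPlace P.1) n a)) + tameInf F n a = 0

/-- The norm on `K_0` is multiplication by the degree. -/
def T_DEG : Prop :=
  ∀ (F : Type u) [Field F] (P : F[X]) [Fact (Irreducible P)], P.Monic →
    polyNorm P 0 one0 = P.natDegree • one0

/-- The norm on `K_0` of a finite extension. -/
def T_DEGE : Prop :=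
  ∀ (F E : Type u) [Field F] [Field E] [Algebra F E] [FiniteDimensional F E],
    norm F E 0 one0 = Module.finrank F E • one0

end Pool.Agent.H62.MK
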