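import Mathlib
import Pool.Agent.H62.MK.Res
import Pool.Agent.H19.KN.Defs

/-!
# Residues of small symbols in the vertical case
-/

namespace Pool.Agent.H62.MK

open Function IsDedekindDomain Pool.Agent.H19.KN

universe u v w

/-- The subgroup of `q`-fold elements. -/
def qsub (A : Type u) [AddCommGroup A] (q : ℕ) : AddSubgroup A := (nsmulAddMonoidHom q : A →+ A).range

theorem mem_qsub {A : Type u} [AddCommGroup A] {q : ℕ} {x : A} : x ∈ qsub A q ↔ ∃ y, x = q • y := by
  unfold qsub
  rw [AddMonoidHom.mem_range]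
  exact ⟨fun ⟨y, hy⟩ => ⟨y, hy.symm⟩, fun ⟨y, hy⟩ => ⟨y, hy.symm⟩⟩

section

variable {O : Type u} [CommRing O] [IsLocalRing O] {F : Type u} [Field F] [Algebra O F]

/-- For `π` in the maximal ideal of `O` the Gersten residue of an element which is small at all
dominating discrete valuation rings is `q`-fold. -/
theorem gerstenResidue_of_small (π : O) (hπ : π ∈ IsLocalRing.maximalIdeal O) (q n : ℕ)
    (hn : 1 ≤ n) (m : ℕ) (x : MilnorK F (m + 1))
    (h : ∀ V : Dom O F, x ∈ USub q (algebraMap O F π) n V.val.toSubring (m + 1)) :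
    ∃ y, gerstenResidue O F m x = q • y := by
  rw [← mem_qsub]
  refine gerstenResidue_mem m x _ fun V => ?_
  haveI := V.dvr
  have hx := h V
  unfold USub at hx
  refine AddSubgroup.closure_induction (p := fun x _ => V.residue m x ∈ qsub _ q)
    ?_ ?_ ?_ ?_ hx
  · rintro z (⟨y, rfl⟩ | ⟨u, ⟨a, ha, hu⟩, y, rfl⟩)
    · rw [map_nsmul]
      exact mem_qsub.2 ⟨_, rfl⟩
    · -- `u` is a unit of `V` with residue one
      have hπV : (⟨algebraMap O F π, V.mem π⟩ : V.val) ∈ IsLocalRing.maximalIdeal V.val :=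
        V.dom π hπ
      have huV : (u : F) ∈ V.val := by
        rw [hu]
        exact V.val.add_mem _ _ V.val.one_mem
          (V.val.mul_mem _ _ (pow_mem (V.mem π) n) ha)
      set u' : V.val := ⟨u, huV⟩ with hu'
      have hres : IsLocalRing.residue V.val u' = 1 := by
        have e : u' = 1 + (⟨algebraMap O F π, V.mem π⟩ : V.val) ^ n * ⟨a, ha⟩ := by
          apply Subtype.ext
          exact hu
        rw [e, map_add, map_one, map_mul, map_pow,
          (IsLocalRing.residue_eq_zero_iff _).2 hπV, zero_pow (by omega), zero_mul, add_zero]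
      have hunit : IsUnit u' := by
        by_contra hnu
        have : u' ∈ IsLocalRing.maximalIdeal V.val := (IsLocalRing.mem_maximalIdeal _).2 hnu
        rw [← IsLocalRing.residue_eq_zero_iff, hres] at this
        exact one_ne_zero this
      have hinv : ((u⁻¹ : Fˣ) : F) ∈ V.val := by
        obtain ⟨w, hw⟩ := hunit
        have h1 : ((w : V.val) : F) * (((w⁻¹ : (V.val)ˣ) : V.val) : F) = 1 := by
          have : (w : V.val) * ((w⁻¹ : (V.val)ˣ) : V.val) = 1 := by simp
          exact congrArg (fun z : V.val => (z : F)) this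
        have h2 : ((w : V.val) : F) = u := by rw [hw]
        rw [h2] at h1
        rw [Units.val_inv_eq_inv_val, ← eq_inv_of_mul_eq_one_right h1]
        exact ((w⁻¹ : (V.val)ˣ) : V.val).2
      have hord : (valDV V.val).ord u = 0 := valDV_ord_eq_zero V.val u huV hinv
      have hures : (valDV V.val).ures u = 1 := by
        rw [(valDV V.val).ures_of_ord_eq_zero u hord]
        apply Units.ext
        simp only [DV.resUnit, Units.val_mk0, Units.val_one]
        rw [← hres]
        exact valDV_res V.val u' _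
      have : V.residue m (cup u y) = 0 := by
        unfold Dom.residue
        rw [AddMonoidHom.comp_apply]
        have h0 := tame_one_unit_cup (valDV V.val) m u hord hures y
        erw [h0]
        exact map_zero _
      rw [this]
      exact zero_mem _
  · rw [map_zero]; exact zero_mem _
  · intro x y _ _ hx hy
    rw [map_add]; exact add_mem hx hy
  · intro x _ hx
    rw [map_neg]; exact neg_mem hx

/-- The centre of a dominating valuation ring on a subring. -/
def Dom.centre (V : Dom O F) (B : Subring F) (hB : ∀ b ∈ B, b ∈ V.val) : Ideal B :=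
  (IsLocalRing.maximalIdeal V.val).comap
    ({ toFun := fun b => ⟨b, hB b b.2⟩
       map_one' := rfl
       map_mul' := fun _ _ => rfl
       map_zero' := rfl
       map_add' := fun _ _ => rfl } : B →+* V.val)

theorem Dom.mem_centre (V : Dom O F) (B : Subring F) (hB : ∀ b ∈ B, b ∈ V.val) (b : B) :
    b ∈ V.centre B hB ↔ (⟨b, hB b b.2⟩ : V.val) ∈ IsLocalRing.maximalIdeal V.val := Iff.rfl

instance (V : Dom O F) (B : Subring F) (hB : ∀ b ∈ B, b ∈ V.val) : (V.centre B hB).IsPrime :=
  Ideal.IsPrime.comap _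

/-- The local ring of `B` at the centre is contained in the valuation ring. -/
theorem Dom.locMem_centre (V : Dom O F) (B : Subring F) (hB : ∀ b ∈ B, b ∈ V.val) (x : F)
    (hx : LocMem B (V.centre B hB) x) : x ∈ V.val := by
  obtain ⟨s, hs, hx⟩ := hx
  rw [V.mem_centre] at hs
  have hu : IsUnit (⟨s, hB s s.2⟩ : V.val) := by
    by_contra hnu
    exact hs ((IsLocalRing.mem_maximalIdeal _).2 hnu)
  obtain ⟨w, hw⟩ := hu
  have h1 : ((w : V.val) : F) * (((w⁻¹ : (V.val)ˣ) : V.val) : F) = 1 := by
    have : (w : V.val) * ((w⁻¹ : (V.val)ˣ) : V.val) = 1 := by simp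
    exact congrArg (fun z : V.val => (z : F)) this
  have h2 : ((w : V.val) : F) = (s : F) := by rw [hw]
  have h3 : x = (((w⁻¹ : (V.val)ˣ) : V.val) : F) * ((s : F) * x) := by
    rw [← mul_assoc, ← h2, mul_comm (((w⁻¹ : (V.val)ˣ) : V.val) : F), h1, one_mul]
  rw [h3]
  exact V.val.mul_mem _ _ ((w⁻¹ : (V.val)ˣ) : V.val).2 (hB _ hx)

/-- The integral closure of the image of a ring over `O` is contained in every dominating
valuation ring. -/
theorem Dom.icl_le (V : Dom O F) {A : Type w} [CommRing A] (f : A →+* O) (b : F)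
    (hb : b ∈ icl ((algebraMap O F).comp f).range F) : b ∈ V.val := by
  have h1 : IsIntegral ((algebraMap O F).comp f).range b := hb
  have h2 : IsIntegral V.val b := by
    obtain ⟨p, hp, hp0⟩ := h1
    have hle : ∀ z ∈ ((algebraMap O F).comp f).range, z ∈ V.val := by
      rintro _ ⟨a, rfl⟩
      exact V.mem _
    refine ⟨p.map (Subring.inclusion (S := ((algebraMap O F).comp f).range)
      (T := V.val.toSubring) hle), hp.map _, ?_⟩
    rw [Polynomial.eval₂_map]
    exact hp0
  obtain ⟨y, hy⟩ := IsIntegrallyClosed.isIntegral_iff.1 h2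
  rw [← hy]
  exact y.2

end

/-- The localisation of a subring at a prime ideal, as a subring. -/
def locSub {F : Type u} [Field F] (B : Subring F) (Q : Ideal B) [hQ : Q.IsPrime] : Subring F where
  carrier := {x | LocMem B Q x}
  zero_mem' := ⟨1, fun h => hQ.ne_top ((Ideal.eq_top_iff_one Q).2 h), by simp [B.zero_mem]⟩
  one_mem' := ⟨1, fun h => hQ.ne_top ((Ideal.eq_top_iff_one Q).2 h), by simp [B.one_mem]⟩
  add_mem' := by
    rintro x y ⟨s, hs, hx⟩ ⟨t, ht, hy⟩
    refine ⟨s * t, fun h => (hQ.mem_or_mem h).elim hs ht, ?_⟩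
    have : ((s * t : B) : F) * (x + y) = (t : F) * ((s : F) * x) + (s : F) * ((t : F) * y) := by
      push_cast; ring
    rw [this]
    exact B.add_mem (B.mul_mem t.2 hx) (B.mul_mem s.2 hy)
  mul_mem' := by
    rintro x y ⟨s, hs, hx⟩ ⟨t, ht, hy⟩
    refine ⟨s * t, fun h => (hQ.mem_or_mem h).elim hs ht, ?_⟩
    have : ((s * t : B) : F) * (x * y) = ((s : F) * x) * ((t : F) * y) := by
      push_cast; ring
    rw [this]
    exact B.mul_mem hx hy
  neg_mem' := by
    rintro x ⟨s, hs, hx⟩
    refine ⟨s, hs, ?_⟩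
    rw [mul_neg]
    exact B.neg_mem hx

theorem mem_locSub {F : Type u} [Field F] (B : Subring F) (Q : Ideal B) [Q.IsPrime] (x : F) :
    x ∈ locSub B Q ↔ LocMem B Q x := Iff.rfl

theorem USub_mono {F : Type u} [Field F] (q : ℕ) (π : F) (n : ℕ) {S S' : Subring F}
    (h : ∀ x ∈ S, x ∈ S') (m : ℕ) : USub q π n S m ≤ USub q π n S' m := by
  unfold USub
  apply AddSubgroup.closure_mono
  cases m with
  | zero => exact fun _ h => h
  | succ m =>
    rintro z (hz | ⟨u, ⟨a, ha, hu⟩, y, rfl⟩)
    · exact Or.inl hz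
    · exact Or.inr ⟨u, ⟨a, h a ha, hu⟩, y, rfl⟩

/-- TQ: `O` local, `π` in its maximal ideal, `B` the integral closure of `O` in `F`. If an element
is small at all primes `Q` of `B` which lie over the maximal ideal of `O`, then its Gersten residue
is `q`-fold. -/
theorem gerstenResidue_TQ {O : Type u} [CommRing O] [IsLocalRing O] {F : Type u} [Field F]
    [Algebra O F] (π : O) (hπ : π ∈ IsLocalRing.maximalIdeal O) (q n : ℕ) (hn : 1 ≤ n)
    (B : Subring F) (hB : ∀ b : F, b ∈ B ↔ IsIntegral O b) (m : ℕ) (x : MilnorK F (m + 1))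
    (h : ∀ (Q : Ideal B) (_ : Q.IsPrime),
      (∀ a ∈ IsLocalRing.maximalIdeal O, ∀ b : B, (b : F) = algebraMap O F a → b ∈ Q) →
      x ∈ USub q (algebraMap O F π) n (locSub B Q) (m + 1)) :
    ∃ y, gerstenResidue O F m x = q • y := by
  refine gerstenResidue_of_small π hπ q n hn m x fun V => ?_
  have hBV : ∀ b ∈ B, b ∈ V.val := fun b hb =>
    V.mem_of_isIntegral (RingHom.id O) b (by
      have := (hB b).1 hb
      exact this)
  refine USub_mono q _ n ?_ (m + 1) (h (V.centre B hBV) inferInstance ?_)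
  · intro x hx
    exact V.locMem_centre B hBV x hx
  · intro a ha b hb
    rw [V.mem_centre]
    have e : (⟨(b : F), hBV b b.2⟩ : V.val) = ⟨algebraMap O F a, V.mem a⟩ := by
      apply Subtype.ext
      exact hb
    rw [e]
    exact V.dom a ha

end Pool.Agent.H62.MK
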