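import Mathlib
import Pool.Agent.H62.MK.Tame
import Pool.Agent.H14.KM.Mor

/-!
# The bridge between `MilnorK R n` and the Milnor ring `KM R` of helper14
-/

namespace Pool.Agent.H62.MK

open Function
open Pool.Agent.H14

universe u v w

section ring

variable {R : Type u} [CommRing R]

/-- The canonical map to the Milnor ring. -/
noncomputable def toKM (n : ℕ) : MilnorK R n →+ KM.KM R :=
  liftOp (A := fun _ => KM.KM R) (1 : KM.KM R) (fun _ a => AddMonoidHom.mulLeft (KM.sym a))
    (fun _ a b x => by
      simp only [AddMonoidHom.coe_mulLeft]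
      rw [KM.sym_mul, add_mul])
    (fun _ a b h x => by
      simp only [AddMonoidHom.coe_mulLeft]
      rw [← mul_assoc, KM.sym_st a b h, zero_mul]) n

theorem toKM_cup (n : ℕ) (a : Rˣ) (x : MilnorK R n) :
    toKM (n + 1) (cup a x) = KM.sym a * toKM n x :=
  liftOp_cup _ _ _ _ _ _ _

theorem toKM_zero_sym (a : Fin 0 → Rˣ) : toKM 0 (sym a) = 1 :=
  liftOp_zero _ _ _ _ _

theorem toKM_one0 : toKM 0 (one0 : MilnorK R 0) = 1 := toKM_zero_sym _

/-- Every symbol of degree 0 is the unit. -/
theorem sym_zero_eq (a : Fin 0 → Rˣ) : sym a = one0 := by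
  unfold one0
  congr 1
  funext i
  exact i.elim0

/-- The shift operator of a unit on the product of all Milnor K-groups. -/
noncomputable def shiftOp (a : Rˣ) : AddMonoid.End (∀ n, MilnorK R n) where
  toFun x := fun n => match n with
    | 0 => 0
    | (n + 1) => cup a (x n)
  map_zero' := by
    funext n
    cases n with
    | zero => rfl
    | succ n => exact map_zero _
  map_add' x y := by
    funext n
    cases n with
    | zero => exact (add_zero _).symm
    | succ n => exact map_add _ _ _

theorem shiftOp_zero (a : Rˣ) (x : ∀ n, MilnorK R n) : shiftOp a x 0 = 0 := rfl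

theorem shiftOp_succ (a : Rˣ) (x : ∀ n, MilnorK R n) (n : ℕ) :
    shiftOp a x (n + 1) = cup a (x n) := rfl

/-- The Milnor ring acts on the product of all Milnor K-groups. -/
noncomputable def actKM : KM.KM R →+* AddMonoid.End (∀ n, MilnorK R n) :=
  KM.lift shiftOp
    (fun a b => by
      refine AddMonoidHom.ext fun x => ?_
      funext n
      cases n with
      | zero => exact (add_zero _).symm
      | succ n => exact cup_mul a b (x n))
    (fun a b h => by
      refine AddMonoidHom.ext fun x => ?_
      funext n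
      rcases n with _ | _ | n
      · rfl
      · show cup a (shiftOp b x 0) = 0
        rw [shiftOp_zero, map_zero]
      · show cup a (cup b (x n)) = 0
        exact cup_cup_eq_zero a b h _)

theorem actKM_sym (a : Rˣ) : actKM (KM.sym a) = shiftOp a := KM.lift_sym _ _ _ _

theorem actKM_toKM (n : ℕ) (x : MilnorK R n) :
    actKM (toKM n x) (Pi.single 0 one0) = Pi.single n x := by
  induction n with
  | zero =>
    refine MilnorK.induction (p := fun x => actKM (toKM 0 x) (Pi.single 0 one0) = Pi.single 0 x)
      x ?_ ?_ ?_ ?_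
    · rw [map_zero, map_zero, Pi.single_zero]; rfl
    · intro a
      rw [toKM_zero_sym, map_one, sym_zero_eq]; rfl
    · intro x hx
      rw [map_neg, map_neg, Pi.single_neg, ← hx]; rfl
    · intro x y hx hy
      rw [map_add, map_add, Pi.single_add, ← hx, ← hy]; rfl
  | succ n ih =>
    refine MilnorK.cup_induction
      (p := fun x => actKM (toKM (n + 1) x) (Pi.single 0 one0) = Pi.single (n + 1) x) x ?_ ?_ ?_
    · rw [map_zero, map_zero, Pi.single_zero]; rfl
    · intro a y
      rw [toKM_cup, map_mul, actKM_sym]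
      show shiftOp a (actKM (toKM n y) (Pi.single 0 one0)) = _
      rw [ih]
      funext m
      cases m with
      | zero => rw [shiftOp_zero, Pi.single_eq_of_ne (by omega)]
      | succ m =>
        rw [shiftOp_succ]
        by_cases h : m = n
        · subst h; rw [Pi.single_eq_same, Pi.single_eq_same]
        · rw [Pi.single_eq_of_ne h, Pi.single_eq_of_ne (by omega), map_zero]
    · intro x y hx hy
      rw [map_add, map_add, Pi.single_add, ← hx, ← hy]; rfl

theorem toKM_injective (n : ℕ) : Injective (toKM n : MilnorK R n →+ KM.KM R) := by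
  intro x y h
  have h1 := actKM_toKM n x
  rw [h, actKM_toKM n y] at h1
  have := congrFun h1 n
  rw [Pi.single_eq_same, Pi.single_eq_same] at this
  exact this.symm

theorem toKM_sym (n : ℕ) (a : Fin n → Rˣ) :
    toKM n (sym a) = ((List.ofFn a).map KM.sym).prod := by
  induction n with
  | zero => simp [toKM_zero_sym]
  | succ n ih =>
    have e : sym a = cup (a 0) (sym (Fin.tail a)) := by rw [cup_sym, Fin.cons_self_tail]
    rw [e, toKM_cup, ih, List.ofFn_succ, List.map_cons, List.prod_cons]
    rfl

theorem toKM_mem_gr (n : ℕ) (x : MilnorK R n) : toKM n x ∈ KM.gr R n := by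
  refine MilnorK.induction (p := fun x => toKM n x ∈ KM.gr R n) x ?_ ?_ ?_ ?_
  · rw [map_zero]; exact zero_mem _
  · intro a
    rw [toKM_sym]
    exact KM.prod_mem_gr (by simp)
  · intro x hx; rw [map_neg]; exact neg_mem hx
  · intro x y hx hy; rw [map_add]; exact add_mem hx hy

theorem exists_of_mem_gr (n : ℕ) (y : KM.KM R) (hy : y ∈ KM.gr R n) :
    ∃ x : MilnorK R n, toKM n x = y := by
  refine KM.gr_induction (p := fun y => ∃ x : MilnorK R n, toKM n x = y) hy ?_ ?_ ?_ ?_
  · exact ⟨0, map_zero _⟩
  · rintro _ _ ⟨x, rfl⟩ ⟨y, rfl⟩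
    exact ⟨x + y, map_add _ _ _⟩
  · rintro _ ⟨x, rfl⟩
    exact ⟨-x, map_neg _ _⟩
  · intro l hl
    subst hl
    refine ⟨sym (fun i => l.get i), ?_⟩
    rw [toKM_sym]
    simp

theorem toKM_map {S : Type v} [CommRing S] (f : R →+* S) (n : ℕ) (x : MilnorK R n) :
    toKM n (map f n x) = KM.map f (toKM n x) := by
  refine MilnorK.induction (p := fun x => toKM n (map f n x) = KM.map f (toKM n x)) x ?_ ?_ ?_ ?_
  · simp
  · intro a
    rw [map_sym, toKM_sym, toKM_sym, map_list_prod, List.map_map, List.map_ofFn, List.map_ofFn]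
    congr 2
    funext i
    exact (KM.map_sym f (a i)).symm
  · intro x hx; simp [hx]
  · intro x y hx hy; simp [hx, hy]

end ring

section tame

variable {F : Type u} {κ : Type v} [Field F] [Field κ]

/-- The valuation data of helper14 attached to a `DV`. -/
noncomputable def DV.ts (D : DV F κ) : KM.TS F κ where
  v := D.ord
  ρ := D.ures
  v_mul := D.ord_mul
  ρ_mul := D.ures_mul
  pos := D.ures_of_pos
  zero := D.ures_add
  neg := D.ures_of_neg

theorem toKM_spec (D : DV F κ) (n : ℕ) (x : MilnorK F n) :
    toKM n (spec D n x) = D.ts.spec (toKM n x) := by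
  induction n with
  | zero =>
    refine MilnorK.induction (p := fun x => toKM 0 (spec D 0 x) = D.ts.spec (toKM 0 x)) x
      ?_ ?_ ?_ ?_
    · simp
    · intro a
      rw [spec_sym, toKM_zero_sym, toKM_zero_sym, map_one]
    · intro x hx; simp [hx]
    · intro x y hx hy; simp [hx, hy]
  | succ n ih =>
    refine MilnorK.cup_induction
      (p := fun x => toKM (n + 1) (spec D (n + 1) x) = D.ts.spec (toKM (n + 1) x)) x ?_ ?_ ?_
    · simp
    · intro a y
      rw [spec_cup, toKM_cup, toKM_cup, ih, map_mul, KM.TS.spec_sym]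
      rfl
    · intro x y hx hy; simp [hx, hy]

/-- The tame symbols agree. -/
theorem toKM_tame (D : DV F κ) (n : ℕ) (x : MilnorK F (n + 1)) :
    toKM n (tame D n x) = D.ts.tame (toKM (n + 1) x) := by
  induction n with
  | zero =>
    refine MilnorK.cup_induction
      (p := fun x => toKM 0 (tame D 0 x) = D.ts.tame (toKM 1 x)) x ?_ ?_ ?_
    · simp
    · intro a y
      rw [tame_zero_cup, toKM_cup, KM.TS.tame_sym_mul, map_zsmul, toKM_spec]
      have h0 : D.ts.tame (toKM 0 y) = 0 := by
        refine MilnorK.induction (p := fun y => D.ts.tame (toKM 0 y) = 0) y ?_ ?_ ?_ ?_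
        · simp
        · intro a; rw [toKM_zero_sym, KM.TS.tame_one]
        · intro x hx; simp [hx]
        · intro x y hx hy; simp [hx, hy]
      rw [h0, mul_zero, mul_zero, add_zero, sub_zero]
      rfl
    · intro x y hx hy; simp [hx, hy]
  | succ n ih =>
    refine MilnorK.cup_induction
      (p := fun x => toKM (n + 1) (tame D (n + 1) x) = D.ts.tame (toKM (n + 2) x)) x ?_ ?_ ?_
    · simp
    · intro a y
      rw [tame_cup_cup, toKM_cup, KM.TS.tame_sym_mul, map_add, map_sub, map_zsmul, map_zsmul,
        toKM_cup, toKM_cup, toKM_spec, ih, smul_add]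
      show D.ord a • _ - KM.sym (D.ures a) * _ + D.ord a • _
        = D.ord a • _ + D.ord a • _ - KM.sym (D.ures a) * _
      abel
    · intro x y hx hy; simp [hx, hy]

end tame

end Pool.Agent.H62.MK
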